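import Pool.Agent.H281.Hel.LinE

/-!
# Point sets with a unimodular projection
-/

set_option autoImplicit false

namespace Pool.Agent.H281.Hel

open Finset Classical

/-- extension of an independent subset of a spanning set to a basis -/
lemma exists_basis {V : Type*} [AddCommGroup V] [Module ℚ V] [FiniteDimensional ℚ V] {k : ℕ}
    (hk : Module.finrank ℚ V = k) {S T : Finset V}
    (hspan : Submodule.span ℚ (S : Set V) = ⊤) (hTS : T ⊆ S)
    (hT : LinearIndepOn ℚ id (T : Set V)) :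
    ∃ b : Fin k → V, LinearIndependent ℚ b ∧ (∀ i, b i ∈ S) ∧ ∀ t ∈ T, ∃ i, b i = t := by
  have hTS' : (T : Set V) ⊆ S := by exact_mod_cast hTS
  set B := hT.extend hTS' with hB
  have hBS : B ⊆ (S : Set V) := hT.extend_subset hTS'
  have hTB : (T : Set V) ⊆ B := hT.subset_extend hTS'
  have hBi : LinearIndepOn ℚ id B := hT.linearIndepOn_extend hTS'
  have hBsp : (S : Set V) ⊆ Submodule.span ℚ B := hT.subset_span_extend hTS'
  have hfin : B.Finite := S.finite_toSet.subset hBS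
  have htop : Submodule.span ℚ B = ⊤ := by
    rw [eq_top_iff, ← hspan]
    exact Submodule.span_le.2 hBsp
  have : Fintype B := hfin.fintype
  have hcard : Fintype.card B = k := by
    have h1 := finrank_span_set_eq_card hBi
    rw [htop, finrank_top, hk, Set.toFinset_card] at h1
    exact h1.symm
  let σ : Fin k ≃ B := (Fintype.equivFinOfCardEq hcard).symm
  refine ⟨fun i => (σ i : V), ?_, fun i => ?_, fun t ht => ?_⟩
  · have := linearIndependent_subtype_iff.2 hBi
    exact this.comp σ σ.injective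
  · exact_mod_cast hBS (σ i).2
  · exact ⟨σ.symm ⟨t, hTB (by exact_mod_cast ht)⟩, by simp⟩

variable {k : ℕ}

/-- the determinant as a function of the row `i` -/
noncomputable def FF (M : Fin (k + 1) → (Fin (k + 1) → ℚ)) (i : Fin (k + 1)) :
    (Fin (k + 1) → ℚ) →ₗ[ℚ] ℚ :=
  (Matrix.detRowAlternating (n := Fin (k + 1)) (R := ℚ)).toMultilinearMap.toLinearMap M i

lemma FF_apply (M : Fin (k + 1) → (Fin (k + 1) → ℚ)) (i : Fin (k + 1)) (x : Fin (k + 1) → ℚ) :
    FF M i x = Matrix.det (Matrix.of (Function.update M i x)) := rfl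

lemma FF_ne (M : Fin (k + 1) → (Fin (k + 1) → ℚ)) {i j : Fin (k + 1)} (h : i ≠ j) :
    FF M i (M j) = 0 :=
  (Matrix.detRowAlternating (n := Fin (k + 1)) (R := ℚ)).map_update_self M h

lemma FF_self (M : Fin (k + 1) → (Fin (k + 1) → ℚ)) (i : Fin (k + 1)) :
    FF M i (M i) = Matrix.det (Matrix.of M) := by
  rw [FF_apply, Function.update_eq_self]

/-- a symmetric spanning set of vectors with determinants at most `Δ` and a direction `v` along
which the projection is unimodular -/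
structure Dat (X : Finset (Fin (k + 1) → ℚ)) (v : Fin (k + 1) → ℚ) (Δ : ℕ) : Prop where
  v0 : v ≠ 0
  neg : ∀ x ∈ X, -x ∈ X
  span : Submodule.span ℚ (X : Set (Fin (k + 1) → ℚ)) = ⊤
  det : ∀ M : Fin (k + 1) → (Fin (k + 1) → ℚ), (∀ i, M i ∈ X) →
    ∃ z : ℤ, Matrix.det (Matrix.of M) = z ∧ |z| ≤ Δ
  uni : ∀ R : Fin k → (Fin (k + 1) → ℚ), (∀ i, R i ∈ X) →
    Matrix.det (Matrix.of (Fin.cons v R : Fin (k + 1) → (Fin (k + 1) → ℚ))) = 0 ∨
    Matrix.det (Matrix.of (Fin.cons v R : Fin (k + 1) → (Fin (k + 1) → ℚ))) = 1 ∨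
    Matrix.det (Matrix.of (Fin.cons v R : Fin (k + 1) → (Fin (k + 1) → ℚ))) = -1

section

variable {X : Finset (Fin (k + 1) → ℚ)} {v : Fin (k + 1) → ℚ} {Δ : ℕ}

/-- the projection along `v` -/
noncomputable abbrev pr (v : Fin (k + 1) → ℚ) :
    (Fin (k + 1) → ℚ) →ₗ[ℚ] ((Fin (k + 1) → ℚ) ⧸ Submodule.span ℚ {v}) :=
  (Submodule.span ℚ {v}).mkQ

lemma pr_eq_zero {x : Fin (k + 1) → ℚ} : pr v x = 0 ↔ ∃ κ : ℚ, x = κ • v := by
  rw [pr, Submodule.mkQ_apply, Submodule.Quotient.mk_eq_zero, Submodule.mem_span_singleton]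
  exact ⟨fun ⟨κ, h⟩ => ⟨κ, h.symm⟩, fun ⟨κ, h⟩ => ⟨κ, h.symm⟩⟩

lemma pr_self : pr v v = 0 := pr_eq_zero.2 ⟨1, (one_smul ℚ v).symm⟩

lemma Dat.finrank (D : Dat X v Δ) :
    Module.finrank ℚ ((Fin (k + 1) → ℚ) ⧸ Submodule.span ℚ {v}) = k := by
  have h1 := Submodule.finrank_quotient_add_finrank (Submodule.span ℚ {v})
  have h2 := finrank_span_singleton (K := ℚ) D.v0
  rw [Module.finrank_fin_fun] at h1
  omega

lemma Dat.spanS (D : Dat X v Δ) :
    Submodule.span ℚ ((X.image (pr v) : Finset _) : Set ((Fin (k + 1) → ℚ) ⧸ Submodule.span ℚ {v}))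
      = ⊤ := by
  rw [Finset.coe_image, Submodule.span_image, D.span, Submodule.map_top]
  exact LinearMap.range_eq_top.2 (Submodule.mkQ_surjective _)

lemma det_ne (D : Dat X v Δ) {b : Fin k → (Fin (k + 1) → ℚ) ⧸ Submodule.span ℚ {v}}
    (hb : LinearIndependent ℚ b) {y : (Fin (k + 1) → ℚ) ⧸ Submodule.span ℚ {v} → Fin (k + 1) → ℚ}
    (hy : ∀ i, pr v (y (b i)) = b i) :
    Matrix.det (Matrix.of (Fin.cons v (fun i => y (b i)) : Fin (k + 1) → (Fin (k + 1) → ℚ))) ≠ 0 := by
  have hli : LinearIndependent ℚ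
      (Fin.cons v (fun i => y (b i)) : Fin (k + 1) → (Fin (k + 1) → ℚ)) := by
    rw [linearIndependent_finCons]
    constructor
    · apply LinearIndependent.of_comp (pr v)
      have : (pr v) ∘ (fun i => y (b i)) = b := funext hy
      rw [this]
      exact hb
    · intro hmem
      obtain ⟨c, hc⟩ := (Submodule.mem_span_range_iff_exists_fun ℚ).1 hmem
      have h1 : ∑ i, c i • b i = 0 := by
        have h2 := congrArg (pr v) hc
        rw [map_sum, pr_self] at h2
        rw [← h2]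
        refine Finset.sum_congr rfl fun i _ => ?_
        rw [map_smul, hy i]
      have h3 := (Fintype.linearIndependent_iff.1 hb) c h1
      apply D.v0
      rw [← hc]
      refine Finset.sum_eq_zero fun i _ => ?_
      rw [h3 i, zero_smul]
  intro h
  have := (Matrix.linearIndependent_rows_iff_isUnit
    (A := Matrix.of (Fin.cons v (fun i => y (b i)) : Fin (k + 1) → (Fin (k + 1) → ℚ)))).1 hli
  rw [Matrix.isUnit_iff_isUnit_det, h] at this
  exact not_isUnit_zero this

lemma Dat.uniS (D : Dat X v Δ) : Uni (X.image (pr v)) := by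
  refine ⟨?_, ?_⟩
  · intro s hs
    obtain ⟨x, hx, rfl⟩ := Finset.mem_image.1 hs
    exact Finset.mem_image.2 ⟨-x, D.neg x hx, map_neg _ x⟩
  · intro T c s hT hi hs hsum t₀ ht₀
    have hlift : ∀ u ∈ X.image (pr v), ∃ x ∈ X, pr v x = u := fun u hu => Finset.mem_image.1 hu
    choose! y hyX hy using hlift
    obtain ⟨b, hb, hbS, hbT⟩ := exists_basis D.finrank D.spanS hT hi
    obtain ⟨i₀, hi₀⟩ := hbT t₀ ht₀
    set R : Fin k → (Fin (k + 1) → ℚ) := fun i => y (b i) with hR
    set M : Fin (k + 1) → (Fin (k + 1) → ℚ) := Fin.cons v R with hM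
    have hdet0 : Matrix.det (Matrix.of M) ≠ 0 := det_ne D hb (fun i => hy _ (hbS i))
    have hdet1 := D.uni R (fun i => hyX _ (hbS i))
    rw [← hM] at hdet1
    obtain ⟨κ, hκ⟩ := pr_eq_zero.1 (show pr v (y s - ∑ t ∈ T, c t • y t) = 0 by
      rw [map_sub, map_sum, hy s hs, sub_eq_zero]
      conv_lhs => rw [hsum]
      refine Finset.sum_congr rfl fun t ht => ?_
      rw [map_smul, hy t (hT ht)])
    have hys : y s = κ • v + ∑ t ∈ T, c t • y t := by
      rw [← hκ]
      abel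
    have hF : FF M (Fin.succ i₀) (y s) = c t₀ * Matrix.det (Matrix.of M) := by
      rw [hys, map_add, map_smul, map_sum]
      have h0 : FF M (Fin.succ i₀) v = 0 := FF_ne M (j := 0) (Fin.succ_ne_zero i₀)
      rw [h0, smul_zero, zero_add, Finset.sum_eq_single t₀]
      · have h1 : y t₀ = M (Fin.succ i₀) := by
          rw [hM, Fin.cons_succ]
          show y t₀ = y (b i₀)
          rw [hi₀]
        rw [map_smul, h1, FF_self, smul_eq_mul]
      · intro t ht hne
        obtain ⟨i, hi'⟩ := hbT t ht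
        have h1 : y t = M (Fin.succ i) := by
          rw [hM, Fin.cons_succ]
          show y t = y (b i)
          rw [hi']
        rw [map_smul, h1, FF_ne, smul_zero]
        intro h
        apply hne
        rw [← hi', ← hi₀, Fin.succ_injective _ h]
      · intro h
        exact absurd ht₀ h
    have hF2 : FF M (Fin.succ i₀) (y s) = 0 ∨ FF M (Fin.succ i₀) (y s) = 1 ∨
        FF M (Fin.succ i₀) (y s) = -1 := by
      rw [FF_apply, hM, ← Fin.cons_update]
      refine D.uni _ fun i => ?_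
      by_cases h : i = i₀
      · rw [h, Function.update_self]
        exact hyX s hs
      · rw [Function.update_of_ne h]
        exact hyX _ (hbS i)
    rw [hF] at hF2
    rcases hdet1 with h | h | h
    · exact absurd h hdet0
    · rw [h, mul_one] at hF2
      exact hF2
    · rw [h] at hF2
      rcases hF2 with h2 | h2 | h2
      · left; linarith
      · right; right; linarith
      · right; left; linarith

lemma Dat.psi (D : Dat X v Δ) {T : Finset ((Fin (k + 1) → ℚ) ⧸ Submodule.span ℚ {v})}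
    (hT : T ⊆ X.image (pr v)) (hi : LinearIndepOn ℚ id (T : Set ((Fin (k + 1) → ℚ) ⧸ Submodule.span ℚ {v})))
    {y : (Fin (k + 1) → ℚ) ⧸ Submodule.span ℚ {v} → Fin (k + 1) → ℚ}
    (hyX : ∀ u ∈ X.image (pr v), y u ∈ X) (hy : ∀ u ∈ X.image (pr v), pr v (y u) = u) :
    ∃ ψ : (Fin (k + 1) → ℚ) →ₗ[ℚ] ℚ, ψ v = 1 ∧ (∀ t ∈ T, ψ (y t) = 0) ∧
      ∀ x ∈ X, ∃ z : ℤ, ψ x = z ∧ |z| ≤ Δ := by
  obtain ⟨b, hb, hbS, hbT⟩ := exists_basis D.finrank D.spanS hT hi
  set R : Fin k → (Fin (k + 1) → ℚ) := fun i => y (b i) with hR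
  set M : Fin (k + 1) → (Fin (k + 1) → ℚ) := Fin.cons v R with hM
  have hdet0 : Matrix.det (Matrix.of M) ≠ 0 := det_ne D hb (fun i => hy _ (hbS i))
  have hdet1 := D.uni R (fun i => hyX _ (hbS i))
  rw [← hM] at hdet1
  have hdet2 : Matrix.det (Matrix.of M) = 1 ∨ Matrix.det (Matrix.of M) = -1 :=
    hdet1.resolve_left hdet0
  refine ⟨Matrix.det (Matrix.of M) • FF M 0, ?_, ?_, ?_⟩
  · have h1 : FF M 0 v = Matrix.det (Matrix.of M) := FF_self M 0
    rw [LinearMap.smul_apply, h1, smul_eq_mul]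
    rcases hdet2 with h | h <;> rw [h] <;> norm_num
  · intro t ht
    obtain ⟨i, hi'⟩ := hbT t ht
    have h1 : y t = M (Fin.succ i) := by
      rw [hM, Fin.cons_succ]
      show y t = y (b i)
      rw [hi']
    rw [LinearMap.smul_apply, h1, FF_ne M (Fin.succ_ne_zero i).symm, smul_zero]
  · intro x hx
    obtain ⟨z, hz, hz'⟩ := D.det (Fin.cons x R) (by
      intro i
      refine Fin.cases ?_ (fun j => ?_) i
      · exact hx
      · rw [Fin.cons_succ]
        exact hyX _ (hbS j))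
    have h1 : FF M 0 x = z := by
      rw [FF_apply, hM, Fin.update_cons_zero]
      exact hz
    rcases hdet2 with h | h
    · exact ⟨z, by rw [LinearMap.smul_apply, h1, h, one_smul], hz'⟩
    · refine ⟨-z, by rw [LinearMap.smul_apply, h1, h, neg_smul, one_smul]; push_cast; rfl, ?_⟩
      rw [abs_neg]
      exact hz'

lemma card_le_of_inj {Y : Finset (Fin (k + 1) → ℚ)} {z : (Fin (k + 1) → ℚ) → ℤ}
    (hz : Set.InjOn z (Y : Set (Fin (k + 1) → ℚ))) {p q : ℤ} (hpq : p ≤ q + 1)
    (h : ∀ y ∈ Y, p ≤ z y ∧ z y ≤ q) : (Y.card : ℚ) ≤ q - p + 1 := by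
  have h1 : Y.card ≤ (Finset.Icc p q).card := by
    rw [← Finset.card_image_of_injOn hz]
    refine Finset.card_le_card fun t ht => ?_
    obtain ⟨y, hy, rfl⟩ := Finset.mem_image.1 ht
    exact Finset.mem_Icc.2 (h y hy)
  rw [Int.card_Icc] at h1
  have h2 : (Y.card : ℤ) ≤ q + 1 - p := by
    have : ((q + 1 - p).toNat : ℤ) = q + 1 - p := Int.toNat_of_nonneg (by linarith)
    rw [← this]
    exact_mod_cast h1
  have h3 : ((Y.card : ℤ) : ℚ) ≤ ((q + 1 - p : ℤ) : ℚ) := by exact_mod_cast h2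
  push_cast at h3
  linarith

end

end Pool.Agent.H281.Hel
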