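import Pool.Agent.H281.Hel.App

/-!
# The bound for point sets with a unimodular projection
-/

set_option autoImplicit false

namespace Pool.Agent.H281.Hel

open Finset Classical

variable {k : ℕ} {X : Finset (Fin (k + 1) → ℚ)} {v : Fin (k + 1) → ℚ} {Δ : ℕ}

/-- the number of points over `u` -/
noncomputable def cnt (X : Finset (Fin (k + 1) → ℚ)) (v : Fin (k + 1) → ℚ)
    (u : (Fin (k + 1) → ℚ) ⧸ Submodule.span ℚ {v}) : ℚ :=
  ((X.filter (fun x => pr v x = u)).card : ℚ)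

lemma Dat.exists_tau (D : Dat X v Δ) :
    ∃ (τ : (Fin (k + 1) → ℚ) →ₗ[ℚ] ℚ) (z : (Fin (k + 1) → ℚ) → ℤ), τ v = 1 ∧
      (∀ x ∈ X, τ x = z x ∧ |z x| ≤ Δ) ∧
      ∀ u, Set.InjOn z ((X.filter (fun x => pr v x = u) : Finset _) : Set (Fin (k + 1) → ℚ)) := by
  have hlift : ∀ u ∈ X.image (pr v), ∃ x ∈ X, pr v x = u := fun u hu => Finset.mem_image.1 hu
  choose! y hyX hy using hlift
  have hi : LinearIndepOn ℚ id
      ((∅ : Finset ((Fin (k + 1) → ℚ) ⧸ Submodule.span ℚ {v})) :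
        Set ((Fin (k + 1) → ℚ) ⧸ Submodule.span ℚ {v})) := by
    rw [Finset.coe_empty]
    exact linearIndepOn_empty ℚ id
  obtain ⟨τ, h1, -, h3⟩ := D.psi (Finset.empty_subset _) hi hyX hy
  choose! z hz using h3
  refine ⟨τ, z, h1, hz, ?_⟩
  intro u x hx x' hx' h
  rw [Finset.mem_coe, Finset.mem_filter] at hx hx'
  obtain ⟨κ, hκ⟩ := pr_eq_zero.1 (show pr v (x - x') = 0 by
    rw [map_sub, hx.2, hx'.2, sub_self])
  have h2 : τ (x - x') = κ := by
    rw [hκ, map_smul, h1, smul_eq_mul, mul_one]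
  rw [map_sub, (hz x hx.1).1, (hz x' hx'.1).1, h, sub_self] at h2
  rw [← h2, zero_smul] at hκ
  exact sub_eq_zero.1 hκ

lemma Dat.heavy (D : Dat X v Δ) : Heavy (X.image (pr v)) (cnt X v) (2 * Δ + (k + 1)) := by
  intro T c s hne hT hi hs hsum hc0
  have hc1 := D.uniS.uni T c s hT hi hs hsum
  obtain ⟨τ, z, hτv, hz, hinj⟩ := D.exists_tau
  have hfib : ∀ u ∈ X.image (pr v), (X.filter (fun x => pr v x = u)).Nonempty := by
    intro u hu
    obtain ⟨x, hx, hxu⟩ := Finset.mem_image.1 hu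
    exact ⟨x, Finset.mem_filter.2 ⟨hx, hxu⟩⟩
  have hmax : ∀ u ∈ X.image (pr v), ∃ x, (x ∈ X ∧ pr v x = u) ∧
      ∀ x' ∈ X.filter (fun x => pr v x = u), z x' ≤ z x := by
    intro u hu
    obtain ⟨x, hx, hx'⟩ := Finset.exists_max_image _ z (hfib u hu)
    exact ⟨x, Finset.mem_filter.1 hx, hx'⟩
  have hmin : ∀ u ∈ X.image (pr v), ∃ x, (x ∈ X ∧ pr v x = u) ∧
      ∀ x' ∈ X.filter (fun x => pr v x = u), z x ≤ z x' := by
    intro u hu
    obtain ⟨x, hx, hx'⟩ := Finset.exists_min_image _ z (hfib u hu)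
    exact ⟨x, Finset.mem_filter.1 hx, hx'⟩
  choose! hi' hiX himax using hmax
  choose! lo loX lomin using hmin
  have hcnt : ∀ u ∈ X.image (pr v), cnt X v u ≤ (z (hi' u) : ℚ) - z (lo u) + 1 := by
    intro u hu
    refine card_le_of_inj (hinj u) ?_ fun x hx => ⟨lomin u hu x hx, himax u hu x hx⟩
    have := lomin u hu (hi' u) (Finset.mem_filter.2 (hiX u hu))
    linarith
  -- the two lifts
  have lift : ∀ (y : (Fin (k + 1) → ℚ) ⧸ Submodule.span ℚ {v} → Fin (k + 1) → ℚ),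
      (∀ u ∈ X.image (pr v), y u ∈ X ∧ pr v (y u) = u) → ∀ x₀ ∈ X, pr v x₀ = s →
      ∃ κ : ℚ, |κ| ≤ Δ ∧ τ x₀ = κ + ∑ t ∈ T, c t * τ (y t) := by
    intro y hy x₀ hx₀ hx₀s
    obtain ⟨κ, hκ⟩ := pr_eq_zero.1 (show pr v (x₀ - ∑ t ∈ T, c t • y t) = 0 by
      rw [map_sub, map_sum, hx₀s, sub_eq_zero]
      conv_lhs => rw [hsum]
      refine Finset.sum_congr rfl fun t ht => ?_
      rw [map_smul, (hy t (hT ht)).2])
    have hx : x₀ = κ • v + ∑ t ∈ T, c t • y t := by
      rw [← hκ]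
      abel
    refine ⟨κ, ?_, ?_⟩
    · obtain ⟨ψ, h1, h2, h3⟩ := D.psi hT hi (fun u hu => (hy u hu).1) (fun u hu => (hy u hu).2)
      obtain ⟨w, hw, hw'⟩ := h3 x₀ hx₀
      have h4 : ψ x₀ = κ := by
        rw [hx, map_add, map_smul, map_sum, h1, smul_eq_mul, mul_one,
          Finset.sum_eq_zero fun t ht => by rw [map_smul, h2 t ht, smul_zero], add_zero]
      rw [← h4, hw]
      have : ((|w| : ℤ) : ℚ) ≤ ((Δ : ℤ) : ℚ) := by exact_mod_cast hw'
      rw [← Int.cast_abs]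
      exact_mod_cast this
    · rw [hx, map_add, map_smul, map_sum, hτv, smul_eq_mul, mul_one]
      congr 1
      refine Finset.sum_congr rfl fun t _ => ?_
      rw [map_smul, smul_eq_mul]
  obtain ⟨κ1, k1, e1⟩ := lift (fun u => if c u = 1 then lo u else hi' u) (by
    intro u hu
    show (if c u = 1 then lo u else hi' u) ∈ X ∧ pr v (if c u = 1 then lo u else hi' u) = u
    split_ifs
    · exact loX u hu
    · exact hiX u hu) (hi' s) (hiX s hs).1 (hiX s hs).2
  obtain ⟨κ2, k2, e2⟩ := lift (fun u => if c u = 1 then hi' u else lo u) (by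
    intro u hu
    show (if c u = 1 then hi' u else lo u) ∈ X ∧ pr v (if c u = 1 then hi' u else lo u) = u
    split_ifs
    · exact hiX u hu
    · exact loX u hu) (lo s) (loX s hs).1 (loX s hs).2
  have hdiff : ∑ t ∈ T, c t * τ (if c t = 1 then hi' t else lo t) -
      ∑ t ∈ T, c t * τ (if c t = 1 then lo t else hi' t) =
      ∑ t ∈ T, ((z (hi' t) : ℚ) - z (lo t)) := by
    rw [← Finset.sum_sub_distrib]
    refine Finset.sum_congr rfl fun t ht => ?_
    have a1 := (hz _ (hiX t (hT ht)).1).1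
    have a2 := (hz _ (loX t (hT ht)).1).1
    by_cases h : c t = 1
    · rw [if_pos h, if_pos h, h, a1, a2]
      ring
    · have h3 : c t = -1 := ((hc1 t ht).resolve_left (hc0 t ht)).resolve_left h
      rw [if_neg h, if_neg h, h3, a1, a2]
      ring
  have b1 := (hz _ (hiX s hs).1).1
  have b2 := (hz _ (loX s hs).1).1
  have e1' : τ (hi' s) = κ1 + ∑ t ∈ T, c t * τ (if c t = 1 then lo t else hi' t) := e1
  have e2' : τ (lo s) = κ2 + ∑ t ∈ T, c t * τ (if c t = 1 then hi' t else lo t) := e2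
  have habs1 := (abs_le.1 k1).2
  have habs2 := (abs_le.1 k2).1
  have hsumT : ∑ t ∈ T, cnt X v t ≤ ∑ t ∈ T, ((z (hi' t) : ℚ) - z (lo t)) + T.card := by
    have : ∑ t ∈ T, cnt X v t ≤ ∑ t ∈ T, (((z (hi' t) : ℚ) - z (lo t)) + 1) :=
      Finset.sum_le_sum fun t ht => hcnt t (hT ht)
    rw [Finset.sum_add_distrib, Finset.sum_const, nsmul_eq_mul, mul_one] at this
    exact this
  have hcs := hcnt s hs
  have hTk : (T.card : ℚ) ≤ k := by
    obtain ⟨b, hb, hbS, hbT⟩ := exists_basis D.finrank D.spanS hT hi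
    have : T ⊆ Finset.univ.image b := by
      intro t ht
      obtain ⟨i, hi⟩ := hbT t ht
      exact Finset.mem_image.2 ⟨i, Finset.mem_univ i, hi⟩
    have h1 := (Finset.card_le_card this).trans Finset.card_image_le
    rw [Finset.card_univ, Fintype.card_fin] at h1
    exact_mod_cast h1
  rw [b1] at e1'
  rw [b2] at e2'
  linarith

lemma cnt_neg (D : Dat X v Δ) (u : (Fin (k + 1) → ℚ) ⧸ Submodule.span ℚ {v}) :
    cnt X v (-u) = cnt X v u := by
  unfold cnt
  congr 1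
  refine Finset.card_nbij' (fun x => -x) (fun x => -x) ?_ ?_ ?_ ?_
  · intro x hx
    have hx := Finset.mem_filter.1 (Finset.mem_coe.1 hx)
    refine Finset.mem_coe.2 (Finset.mem_filter.2 ⟨D.neg x hx.1, ?_⟩)
    rw [map_neg, hx.2, neg_neg]
  · intro x hx
    have hx := Finset.mem_filter.1 (Finset.mem_coe.1 hx)
    refine Finset.mem_coe.2 (Finset.mem_filter.2 ⟨D.neg x hx.1, ?_⟩)
    rw [map_neg, hx.2]
  · intro x _
    exact neg_neg x
  · intro x _
    exact neg_neg x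

/-- the bound -/
theorem Dat.bound (D : Dat X v Δ) : (X.card : ℚ) ≤ (2 * Δ + 1) + k * (2 * Δ + (k + 1)) := by
  have h1 := weg k ((Fin (k + 1) → ℚ) ⧸ Submodule.span ℚ {v}) (X.image (pr v)) (cnt X v)
    (2 * Δ + (k + 1)) D.finrank D.uniS (fun s _ _ => by unfold cnt; positivity) (cnt_neg D)
    (by positivity) D.heavy
  have h0 : cnt X v 0 ≤ 2 * Δ + 1 := by
    obtain ⟨τ, z, hτv, hz, hinj⟩ := D.exists_tau
    have := card_le_of_inj (p := -(Δ : ℤ)) (q := Δ) (hinj 0) (by linarith [Int.natCast_nonneg Δ])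
      (fun x hx => by
        have := (hz x (Finset.mem_filter.1 hx).1).2
        exact abs_le.1 this)
    push_cast at this
    unfold cnt
    linarith
  have h2 : (X.card : ℚ) = ∑ u ∈ X.image (pr v), cnt X v u := by
    unfold cnt
    rw [Finset.card_eq_sum_card_image (pr v) X]
    push_cast
    rfl
  rw [h2]
  by_cases hz : (0 : (Fin (k + 1) → ℚ) ⧸ Submodule.span ℚ {v}) ∈ X.image (pr v)
  · rw [← Finset.add_sum_erase _ _ hz]
    linarith
  · rw [Finset.erase_eq_of_notMem hz] at h1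
    have : (0 : ℚ) ≤ 2 * Δ + 1 := by positivity
    linarith

end Pool.Agent.H281.Hel
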