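import Mathlib

/-!
# The combinatorial part of the weighted Erdős–Gallai inequality for unimodular systems
-/

set_option autoImplicit false

namespace Pool.Agent.H281.Hel

/-- no admissible pattern of types -/
def coreB (t000 t001 t010 t011 t100 t101 t110 t111 : Bool) : Bool :=
  !(t000 && t011 && t101) && !(t000 && t011 && t110) && !(t000 && t101 && t110) &&
  !(t011 && t101 && t110) && !(t111 && t100 && t010) && !(t111 && t100 && t001) &&
  !(t111 && t010 && t001) && !(t100 && t010 && t001) &&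
  (t110 || t111) && (t100 || t101) && (t010 || t011) && (t000 || t001) &&
  (t001 || t011 || t100 || t110) && (t000 || t010 || t101 || t111) &&
  (t001 || t101 || t010 || t110) && (t000 || t100 || t011 || t111) &&
  (t001 || t011 || t101 || t111) && (t000 || t010 || t100 || t110)

lemma coreB_false : ∀ t000 t001 t010 t011 t100 t101 t110 t111 : Bool,
    coreB t000 t001 t010 t011 t100 t101 t110 t111 = false := by
  decide

lemma bool_core (t000 t001 t010 t011 t100 t101 t110 t111 : Bool)
    (h1 : (t000 && t011 && t101) = false) (h2 : (t000 && t011 && t110) = false)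
    (h3 : (t000 && t101 && t110) = false) (h4 : (t011 && t101 && t110) = false)
    (h5 : (t111 && t100 && t010) = false) (h6 : (t111 && t100 && t001) = false)
    (h7 : (t111 && t010 && t001) = false) (h8 : (t100 && t010 && t001) = false)
    (h9 : (t110 || t111) = true) (h10 : (t100 || t101) = true) (h11 : (t010 || t011) = true)
    (h12 : (t000 || t001) = true)
    (h13 : (t001 || t011 || t100 || t110) = true) (h14 : (t000 || t010 || t101 || t111) = true)
    (h15 : (t001 || t101 || t010 || t110) = true) (h16 : (t000 || t100 || t011 || t111) = true)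
    (h17 : (t001 || t011 || t101 || t111) = true) (h18 : (t000 || t010 || t100 || t110) = true) :
    False := by
  have := coreB_false t000 t001 t010 t011 t100 t101 t110 t111
  unfold coreB at this
  rw [h1, h2, h3, h4, h5, h6, h7, h8, h9, h10, h11, h12, h13, h14, h15, h16, h17, h18] at this
  exact absurd this (by decide)

open Finset Classical

variable {α : Type*}

/-- the data: a finite set `J`, a family `P` of subsets closed under complements, weights -/
structure Pages (J : Finset α) (P : Finset (Finset α)) (a : α → ℚ) (w : Finset α → ℚ) (E : ℚ) :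
    Prop where
  sub : ∀ A ∈ P, A ⊆ J
  compl : ∀ A ∈ P, J \ A ∈ P
  nonempty : ∀ A ∈ P, A.Nonempty
  pos : ∀ A ∈ P, 0 ≤ w A + w (J \ A) - E
  incl : ∀ A ∈ P, ∀ B ∈ P, A ⊆ B → A ≠ B → w B + w (J \ A) ≤ E + ∑ j ∈ B \ A, a j
  le : ∀ A ∈ P, w A ≤ ∑ j ∈ A, a j
  cross : ∀ A ∈ P, ∀ B ∈ P, (∃ x ∈ J, x ∈ A ∧ x ∈ B) → (∃ x ∈ J, x ∈ A ∧ x ∉ B) →
    (∃ x ∈ J, x ∉ A ∧ x ∈ B) → (∃ x ∈ J, x ∉ A ∧ x ∉ B) →
    w A + w (J \ A) + w B + w (J \ B) ≤ E + ∑ j ∈ J, a j
  bad : ∀ A ∈ P, ∀ B ∈ P, ∀ C ∈ P, ∀ x ∈ J, ∀ y ∈ J, ∀ z ∈ J,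
    ¬ (x ∈ A ∧ x ∈ B ∧ x ∉ C ∧ y ∈ A ∧ y ∉ B ∧ y ∈ C ∧ z ∉ A ∧ z ∈ B ∧ z ∈ C)
  two : 2 * E ≤ E + ∑ j ∈ J, a j

variable {J : Finset α} {P : Finset (Finset α)} {a : α → ℚ} {w : Finset α → ℚ} {E : ℚ}

/-- the type of a point with respect to three sets is realised -/
def Typ (J A B C : Finset α) (p q r : Bool) : Prop :=
  ∃ x ∈ J, (x ∈ A ↔ p = true) ∧ (x ∈ B ↔ q = true) ∧ (x ∈ C ↔ r = true)

lemma Typ.compl1 {A B C : Finset α} {p q r : Bool} (h : Typ J A B C p q r) :
    Typ J (J \ A) B C (!p) q r := by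
  obtain ⟨x, hx, h1, h2, h3⟩ := h
  refine ⟨x, hx, ?_, h2, h3⟩
  rw [Finset.mem_sdiff, h1]
  cases p <;> simp [hx]

lemma Typ.compl2 {A B C : Finset α} {p q r : Bool} (h : Typ J A B C p q r) :
    Typ J A (J \ B) C p (!q) r := by
  obtain ⟨x, hx, h1, h2, h3⟩ := h
  refine ⟨x, hx, h1, ?_, h3⟩
  rw [Finset.mem_sdiff, h2]
  cases q <;> simp [hx]

lemma Typ.compl3 {A B C : Finset α} {p q r : Bool} (h : Typ J A B C p q r) :
    Typ J A B (J \ C) p q (!r) := by
  obtain ⟨x, hx, h1, h2, h3⟩ := h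
  refine ⟨x, hx, h1, h2, ?_⟩
  rw [Finset.mem_sdiff, h3]
  cases r <;> simp [hx]

lemma Pages.bad' (hP : Pages J P a w E) {A B C : Finset α} (hA : A ∈ P) (hB : B ∈ P)
    (hC : C ∈ P) (p q r : Bool) :
    ¬ (Typ J A B C p q (!r) ∧ Typ J A B C p (!q) r ∧ Typ J A B C (!p) q r) := by
  rintro ⟨h1, h2, h3⟩
  -- flip so that p = q = r = true
  have key : ∀ A ∈ P, ∀ B ∈ P, ∀ C ∈ P, Typ J A B C true true false →
      Typ J A B C true false true → Typ J A B C false true true → False := by
    intro A hA B hB C hC h1 h2 h3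
    obtain ⟨x, hx, x1, x2, x3⟩ := h1
    obtain ⟨y, hy, y1, y2, y3⟩ := h2
    obtain ⟨z, hz, z1, z2, z3⟩ := h3
    exact hP.bad A hA B hB C hC x hx y hy z hz ⟨by simpa using x1, by simpa using x2,
      by simpa using x3, by simpa using y1, by simpa using y2, by simpa using y3,
      by simpa using z1, by simpa using z2, by simpa using z3⟩
  cases p <;> cases q <;> cases r <;> simp only [Bool.not_true, Bool.not_false] at h1 h2 h3
  · exact key _ (hP.compl _ hA) _ (hP.compl _ hB) _ (hP.compl _ hC) h1.compl1.compl2.compl3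
      h2.compl1.compl2.compl3 h3.compl1.compl2.compl3
  · exact key _ (hP.compl _ hA) _ (hP.compl _ hB) _ hC h1.compl1.compl2
      h2.compl1.compl2 h3.compl1.compl2
  · exact key _ (hP.compl _ hA) _ hB _ (hP.compl _ hC) h1.compl1.compl3
      h2.compl1.compl3 h3.compl1.compl3
  · exact key _ (hP.compl _ hA) _ hB _ hC h1.compl1 h2.compl1 h3.compl1
  · exact key _ hA _ (hP.compl _ hB) _ (hP.compl _ hC) h1.compl2.compl3
      h2.compl2.compl3 h3.compl2.compl3
  · exact key _ hA _ (hP.compl _ hB) _ hC h1.compl2 h2.compl2 h3.compl2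
  · exact key _ hA _ hB _ (hP.compl _ hC) h1.compl3 h2.compl3 h3.compl3
  · exact key _ hA _ hB _ hC h1 h2 h3

lemma typ_of {A B C : Finset α} {x : α} (hx : x ∈ J) :
    ∃ p q r : Bool, Typ J A B C p q r ∧ (x ∈ A ↔ p = true) ∧ (x ∈ B ↔ q = true) ∧
      (x ∈ C ↔ r = true) :=
  ⟨decide (x ∈ A), decide (x ∈ B), decide (x ∈ C), ⟨x, hx, by simp, by simp, by simp⟩,
    by simp, by simp, by simp⟩


lemma exists_ne {A C : Finset α} (hA : A ⊆ J) (hC : C ⊆ J) (h : C ≠ A) :
    ∃ x ∈ J, ¬ (x ∈ C ↔ x ∈ A) := by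
  by_contra hcon
  push Not at hcon
  apply h
  ext x
  by_cases hx : x ∈ J
  · exact hcon x hx
  · exact ⟨fun h => absurd (hC h) hx, fun h => absurd (hA h) hx⟩

lemma exists_eq {A C : Finset α} (hA : A ⊆ J) (hC : C ⊆ J) (h : C ≠ J \ A) :
    ∃ x ∈ J, (x ∈ C ↔ x ∈ A) := by
  obtain ⟨x, hx, h⟩ := exists_ne (A := J \ A) Finset.sdiff_subset hC h
  refine ⟨x, hx, ?_⟩
  rw [Finset.mem_sdiff] at h
  by_cases h1 : x ∈ A <;> by_cases h2 : x ∈ C <;> simp_all

lemma Pages.third (hP : Pages J P a w E) {A B C : Finset α} (hA : A ∈ P) (hB : B ∈ P)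
    (hC : C ∈ P) (h11 : ∃ x ∈ J, x ∈ A ∧ x ∈ B) (h10 : ∃ x ∈ J, x ∈ A ∧ x ∉ B)
    (h01 : ∃ x ∈ J, x ∉ A ∧ x ∈ B) (h00 : ∃ x ∈ J, x ∉ A ∧ x ∉ B)
    (c1 : C ≠ A) (c2 : C ≠ J \ A) (c3 : C ≠ B) (c4 : C ≠ J \ B) : False := by
  have sA := hP.sub A hA
  have sB := hP.sub B hB
  have sC := hP.sub C hC
  have H := hP.bad' hA hB hC
  have n1 : ∃ x ∈ J, x ∈ C := by
    obtain ⟨x, hx⟩ := hP.nonempty C hC
    exact ⟨x, sC hx, hx⟩
  have n2 : ∃ x ∈ J, x ∉ C := by
    obtain ⟨x, hx⟩ := hP.nonempty _ (hP.compl C hC)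
    rw [Finset.mem_sdiff] at hx
    exact ⟨x, hx.1, hx.2⟩
  have e1 := exists_ne sA sC c1
  have e2 := exists_eq sA sC c2
  have e3 := exists_ne sB sC c3
  have e4 := exists_eq sB sC c4
  refine bool_core (decide (Typ J A B C false false false)) (decide (Typ J A B C false false true))
    (decide (Typ J A B C false true false)) (decide (Typ J A B C false true true))
    (decide (Typ J A B C true false false)) (decide (Typ J A B C true false true))
    (decide (Typ J A B C true true false)) (decide (Typ J A B C true true true))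
    ?_ ?_ ?_ ?_ ?_ ?_ ?_ ?_ ?_ ?_ ?_ ?_ ?_ ?_ ?_ ?_ ?_ ?_
  · have := H false false true
    simp only [Bool.not_true, Bool.not_false] at this
    rw [← Bool.not_eq_true]
    simp only [Bool.and_eq_true, decide_eq_true_eq]
    tauto
  · have := H false true false
    simp only [Bool.not_true, Bool.not_false] at this
    rw [← Bool.not_eq_true]
    simp only [Bool.and_eq_true, decide_eq_true_eq]
    tauto
  · have := H true false false
    simp only [Bool.not_true, Bool.not_false] at this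
    rw [← Bool.not_eq_true]
    simp only [Bool.and_eq_true, decide_eq_true_eq]
    tauto
  · have := H true true true
    simp only [Bool.not_true, Bool.not_false] at this
    rw [← Bool.not_eq_true]
    simp only [Bool.and_eq_true, decide_eq_true_eq]
    tauto
  · have := H true true false
    simp only [Bool.not_true, Bool.not_false] at this
    rw [← Bool.not_eq_true]
    simp only [Bool.and_eq_true, decide_eq_true_eq]
    tauto
  · have := H true false true
    simp only [Bool.not_true, Bool.not_false] at this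
    rw [← Bool.not_eq_true]
    simp only [Bool.and_eq_true, decide_eq_true_eq]
    tauto
  · have := H false true true
    simp only [Bool.not_true, Bool.not_false] at this
    rw [← Bool.not_eq_true]
    simp only [Bool.and_eq_true, decide_eq_true_eq]
    tauto
  · have := H false false false
    simp only [Bool.not_true, Bool.not_false] at this
    rw [← Bool.not_eq_true]
    simp only [Bool.and_eq_true, decide_eq_true_eq]
    tauto
  all_goals
    simp only [Bool.or_eq_true, decide_eq_true_eq]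
  · obtain ⟨x, hx, h⟩ := h11
    obtain ⟨p, q, r, t, t1, t2, t3⟩ := typ_of (A := A) (B := B) (C := C) hx
    cases p <;> cases q <;> cases r <;> simp_all
  · obtain ⟨x, hx, h⟩ := h10
    obtain ⟨p, q, r, t, t1, t2, t3⟩ := typ_of (A := A) (B := B) (C := C) hx
    cases p <;> cases q <;> cases r <;> simp_all
  · obtain ⟨x, hx, h⟩ := h01
    obtain ⟨p, q, r, t, t1, t2, t3⟩ := typ_of (A := A) (B := B) (C := C) hx
    cases p <;> cases q <;> cases r <;> simp_all
  · obtain ⟨x, hx, h⟩ := h00
    obtain ⟨p, q, r, t, t1, t2, t3⟩ := typ_of (A := A) (B := B) (C := C) hx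
    cases p <;> cases q <;> cases r <;> simp_all
  · obtain ⟨x, hx, h⟩ := e1
    obtain ⟨p, q, r, t, t1, t2, t3⟩ := typ_of (A := A) (B := B) (C := C) hx
    cases p <;> cases q <;> cases r <;> simp_all
  · obtain ⟨x, hx, h⟩ := e2
    obtain ⟨p, q, r, t, t1, t2, t3⟩ := typ_of (A := A) (B := B) (C := C) hx
    cases p <;> cases q <;> cases r <;> simp_all
  · obtain ⟨x, hx, h⟩ := e3
    obtain ⟨p, q, r, t, t1, t2, t3⟩ := typ_of (A := A) (B := B) (C := C) hx
    cases p <;> cases q <;> cases r <;> simp_all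
  · obtain ⟨x, hx, h⟩ := e4
    obtain ⟨p, q, r, t, t1, t2, t3⟩ := typ_of (A := A) (B := B) (C := C) hx
    cases p <;> cases q <;> cases r <;> simp_all
  · obtain ⟨x, hx, h⟩ := n1
    obtain ⟨p, q, r, t, t1, t2, t3⟩ := typ_of (A := A) (B := B) (C := C) hx
    cases p <;> cases q <;> cases r <;> simp_all
  · obtain ⟨x, hx, h⟩ := n2
    obtain ⟨p, q, r, t, t1, t2, t3⟩ := typ_of (A := A) (B := B) (C := C) hx
    cases p <;> cases q <;> cases r <;> simp_all

/-- two pages containing a common minimal page are comparable -/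
lemma Pages.comparable (hP : Pages J P a w E) {A B C : Finset α} (hA : A ∈ P) (hB : B ∈ P)
    (hC : C ∈ P) (hAB : A ⊆ B) (hAC : A ⊆ C) : B ⊆ C ∨ C ⊆ B := by
  by_contra h
  push Not at h
  obtain ⟨x, xB, xC⟩ := Finset.not_subset.1 h.1
  obtain ⟨y, yC, yB⟩ := Finset.not_subset.1 h.2
  obtain ⟨z, zA⟩ := hP.nonempty A hA
  have sB := hP.sub B hB
  have sC := hP.sub C hC
  have xA : x ∉ A := fun h => xC (hAC h)
  have yA : y ∉ A := fun h => yB (hAB h)
  refine hP.bad _ (hP.compl A hA) B hB C hC x (sB xB) y (sC yC) z (sB (hAB zA)) ?_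
  simp only [Finset.mem_sdiff]
  exact ⟨⟨sB xB, xA⟩, xB, xC, ⟨sC yC, yA⟩, yB, yC, fun h => h.2 zA, hAB zA, hAC zA⟩

/-- the sum over a chain -/
lemma Pages.chain (hP : Pages J P a w E) (s : Finset (Finset α)) :
    s ⊆ P → (∀ A ∈ s, ∀ B ∈ s, A ⊆ B ∨ B ⊆ A) → ∀ M ∈ s, (∀ A ∈ s, A ⊆ M) →
      ∑ A ∈ s, w A + ∑ A ∈ s.erase M, w (J \ A) ≤ ((s.card : ℚ) - 1) * E + ∑ j ∈ M, a j := by
  induction s using Finset.induction_on_max_value (fun A : Finset α => A.card) with
  | empty => intro _ _ M hM; simp at hM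
  | insert B s hB hmax ih =>
    intro hs hch M hM hMmax
    have hBM : B = M := by
      have h1 : B ⊆ M := hMmax B (Finset.mem_insert_self _ _)
      rcases Finset.mem_insert.1 hM with h | h
      · exact h.symm
      · exact Finset.eq_of_subset_of_card_le h1 (hmax M h)
    subst hBM
    rw [Finset.erase_insert hB, Finset.sum_insert hB, Finset.card_insert_of_notMem hB]
    rcases s.eq_empty_or_nonempty with he | hne
    · subst he
      simp
      exact hP.le B (hs (Finset.mem_insert_self _ _))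
    · obtain ⟨N, hN, hNmax⟩ := Finset.exists_max_image s (fun A : Finset α => A.card) hne
      have hNsub : ∀ A ∈ s, A ⊆ N := by
        intro A hA
        rcases hch A (Finset.mem_insert_of_mem hA) N (Finset.mem_insert_of_mem hN) with h | h
        · exact h
        · exact (Finset.eq_of_subset_of_card_le h (hNmax A hA)).symm ▸ Finset.Subset.refl _
      have := ih (fun A hA => hs (Finset.mem_insert_of_mem hA))
        (fun A hA C hC => hch A (Finset.mem_insert_of_mem hA) C (Finset.mem_insert_of_mem hC))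
        N hN hNsub
      have hNB : N ⊆ B := hMmax N (Finset.mem_insert_of_mem hN)
      have hNe : N ≠ B := fun h => hB (h ▸ hN)
      have h2 := hP.incl N (hs (Finset.mem_insert_of_mem hN)) B
        (hs (Finset.mem_insert_self _ _)) hNB hNe
      have h3 : ∑ A ∈ s, w (J \ A) = w (J \ N) + ∑ A ∈ s.erase N, w (J \ A) :=
        (Finset.add_sum_erase s _ hN).symm
      have h4 : ∑ j ∈ B, a j = ∑ j ∈ B \ N, a j + ∑ j ∈ N, a j :=
        (Finset.sum_sdiff hNB).symm
      rw [h3, h4]
      push_cast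
      linarith

lemma sum_insert_le {β : Type*} [DecidableEq β] (f : β → ℚ) {x : β} {s : Finset β} (hx : 0 ≤ f x) :
    ∑ y ∈ insert x s, f y ≤ f x + ∑ y ∈ s, f y := by
  by_cases h : x ∈ s
  · rw [Finset.insert_eq_of_mem h]
    linarith
  · rw [Finset.sum_insert h]

/-- the page inequality -/
lemma Pages.main (hP : Pages J P a w E) :
    ∑ A ∈ P, (w A + w (J \ A) - E) ≤ 2 * (E + ∑ j ∈ J, a j - 2 * E) := by
  have hcc : ∀ A ∈ P, J \ (J \ A) = A := fun A hA =>
    Finset.sdiff_sdiff_eq_self (hP.sub A hA)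
  rcases P.eq_empty_or_nonempty with he | hne
  · subst he
    have := hP.two
    simp only [Finset.sum_empty]
    linarith
  obtain ⟨A, hA, hmin⟩ := Finset.exists_min_image P (fun A : Finset α => A.card) hne
  by_cases hcr : ∃ B ∈ P, (∃ x ∈ J, x ∈ A ∧ x ∈ B) ∧ (∃ x ∈ J, x ∈ A ∧ x ∉ B) ∧
      (∃ x ∈ J, x ∉ A ∧ x ∈ B) ∧ (∃ x ∈ J, x ∉ A ∧ x ∉ B)
  · obtain ⟨B, hB, h11, h10, h01, h00⟩ := hcr
    have hsub : P ⊆ {A, J \ A, B, J \ B} := by
      intro C hC
      by_contra hcon
      simp only [Finset.mem_insert, Finset.mem_singleton, not_or] at hcon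
      exact hP.third hA hB hC h11 h10 h01 h00 hcon.1 hcon.2.1 hcon.2.2.1 hcon.2.2.2
    have hpos : ∀ C ∈ P, 0 ≤ w C + w (J \ C) - E := hP.pos
    have h1 : ∑ C ∈ P, (w C + w (J \ C) - E) ≤
        ∑ C ∈ ({A, J \ A, B, J \ B} : Finset (Finset α)), (w C + w (J \ C) - E) := by
      refine Finset.sum_le_sum_of_subset_of_nonneg hsub ?_
      intro C hC _
      simp only [Finset.mem_insert, Finset.mem_singleton] at hC
      rcases hC with rfl | rfl | rfl | rfl
      · exact hpos _ hA
      · exact hpos _ (hP.compl _ hA)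
      · exact hpos _ hB
      · exact hpos _ (hP.compl _ hB)
    have h2 : ∑ C ∈ ({A, J \ A, B, J \ B} : Finset (Finset α)), (w C + w (J \ C) - E) ≤
        (w A + w (J \ A) - E) + ((w (J \ A) + w (J \ (J \ A)) - E) +
          ((w B + w (J \ B) - E) + (w (J \ B) + w (J \ (J \ B)) - E))) := by
      refine (sum_insert_le (fun C : Finset α => w C + w (J \ C) - E) (hpos _ hA)).trans ?_
      refine add_le_add le_rfl ?_
      refine (sum_insert_le (fun C : Finset α => w C + w (J \ C) - E)
        (hpos _ (hP.compl _ hA))).trans ?_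
      refine add_le_add le_rfl ?_
      refine (sum_insert_le (fun C : Finset α => w C + w (J \ C) - E) (hpos _ hB)).trans ?_
      rw [Finset.sum_singleton]
    rw [hcc A hA, hcc B hB] at h2
    have h3 := hP.cross A hA B hB h11 h10 h01 h00
    linarith
  · push Not at hcr
    obtain ⟨z, zA⟩ := hP.nonempty A hA
    have zJ := hP.sub A hA zA
    have hcont : ∀ B ∈ P, A ⊆ B ∨ A ⊆ J \ B := by
      intro B hB
      by_contra hcon
      push Not at hcon
      obtain ⟨x, xA, xB⟩ := Finset.not_subset.1 hcon.1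
      obtain ⟨y, yA, yB⟩ := Finset.not_subset.1 hcon.2
      have yJ := hP.sub A hA yA
      have yB' : y ∈ B := by
        by_contra h
        exact yB (Finset.mem_sdiff.2 ⟨yJ, h⟩)
      have h3 : ∃ x ∈ J, x ∉ A ∧ x ∈ B := by
        by_contra h
        push Not at h
        have hBA : B ⊆ A := by
          intro t ht
          by_contra h'
          exact h t (hP.sub B hB ht) h' ht
        have := Finset.eq_of_subset_of_card_le hBA (hmin B hB)
        exact xB (this ▸ xA)
      have h4 : ∃ x ∈ J, x ∉ A ∧ x ∉ B := by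
        by_contra h
        push Not at h
        have hBA : J \ B ⊆ A := by
          intro t ht
          rw [Finset.mem_sdiff] at ht
          by_contra h'
          exact ht.2 (h t ht.1 h')
        have := Finset.eq_of_subset_of_card_le hBA (hmin _ (hP.compl B hB))
        exact yB (this ▸ yA)
      obtain ⟨u, uJ, u1, u2⟩ := h4
      exact u2 (hcr B hB ⟨y, yJ, yA, yB'⟩ ⟨x, hP.sub A hA xA, xA, xB⟩ h3 u uJ u1)
    set C := P.filter (fun B => A ⊆ B) with hC
    have hsplit : ∑ B ∈ P, (w B + w (J \ B) - E) = 2 * ∑ B ∈ C, (w B + w (J \ B) - E) := by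
      rw [← Finset.sum_filter_add_sum_filter_not P (fun B => A ⊆ B), ← hC, two_mul]
      congr 1
      refine Finset.sum_nbij' (fun B => J \ B) (fun B => J \ B) ?_ ?_ ?_ ?_ ?_
      · intro B hB
        rw [Finset.mem_filter] at hB
        rw [hC, Finset.mem_filter]
        exact ⟨hP.compl B hB.1, (hcont B hB.1).resolve_left hB.2⟩
      · intro B hB
        rw [hC, Finset.mem_filter] at hB
        rw [Finset.mem_filter]
        refine ⟨hP.compl B hB.1, fun h => ?_⟩
        exact (Finset.mem_sdiff.1 (h zA)).2 (hB.2 zA)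
      · intro B hB
        exact hcc B (Finset.mem_filter.1 hB).1
      · intro B hB
        exact hcc B (Finset.mem_filter.1 (hC ▸ hB)).1
      · intro B hB
        rw [hcc B (Finset.mem_filter.1 hB).1]
        ring
    have hCne : C.Nonempty := ⟨A, by rw [hC, Finset.mem_filter]; exact ⟨hA, Finset.Subset.refl _⟩⟩
    have hCP : C ⊆ P := Finset.filter_subset _ _
    have hch : ∀ B ∈ C, ∀ B' ∈ C, B ⊆ B' ∨ B' ⊆ B := by
      intro B hB B' hB'
      rw [hC, Finset.mem_filter] at hB hB'
      exact hP.comparable hA hB.1 hB'.1 hB.2 hB'.2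
    obtain ⟨M, hM, hMmax⟩ := Finset.exists_max_image C (fun A : Finset α => A.card) hCne
    have hMsub : ∀ B ∈ C, B ⊆ M := by
      intro B hB
      rcases hch B hB M hM with h | h
      · exact h
      · exact (Finset.eq_of_subset_of_card_le h (hMmax B hB)).symm ▸ Finset.Subset.refl _
    have h1 := hP.chain C hCP hch M hM hMsub
    have h2 := hP.le _ (hP.compl M (hCP hM))
    have h3 : ∑ B ∈ C, w (J \ B) = w (J \ M) + ∑ B ∈ C.erase M, w (J \ B) :=
      (Finset.add_sum_erase C _ hM).symm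
    have h4 : ∑ j ∈ J, a j = ∑ j ∈ J \ M, a j + ∑ j ∈ M, a j :=
      (Finset.sum_sdiff (hP.sub M (hCP hM))).symm
    have h5 : ∑ B ∈ C, (w B + w (J \ B) - E) =
        ∑ B ∈ C, w B + ∑ B ∈ C, w (J \ B) - C.card * E := by
      rw [Finset.sum_sub_distrib, Finset.sum_add_distrib, Finset.sum_const, nsmul_eq_mul]
    rw [hsplit, h5, h3, h4]
    linarith

end Pool.Agent.H281.Hel

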