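import Mathlib

/-!
# Sets of integer vectors with bounded minors obtained by adding pendant coordinates

The planar hexagon `|x| ≤ 2r, |y| ≤ 2, |x + r y| ≤ 2r` is the difference set of the hexagon
`|x| ≤ r, |y| ≤ 1, |x + r y| ≤ r`, and its `2 × 2` minors are at most `4 r`.  Adding a unit vector
of a new coordinate to the small hexagon again and again, and taking differences, gives sets of
integer vectors in every dimension whose maximal minors are at most `4 r`.
-/

set_option autoImplicit false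

namespace Pool.Agent.H281.Hel

open Finset

/-- lattice points `(x, y)` with `|y| ≤ s`, `|x| ≤ s r`, `|x + r y| ≤ s r`, listed by rows -/
noncomputable def hex (s r : ℕ) : Finset (Fin 2 → ℤ) :=
  ((Finset.Icc (-(s : ℤ)) s).sigma fun y : ℤ =>
    Finset.Icc (max (-((s : ℤ) * r)) (-((s : ℤ) * r) - r * y))
      (min ((s : ℤ) * r) ((s : ℤ) * r - r * y))).image
    fun p : (_ : ℤ) × ℤ => ![p.2, p.1]

lemma mem_hex {s r : ℕ} {v : Fin 2 → ℤ} :
    v ∈ hex s r ↔ |v 1| ≤ s ∧ |v 0| ≤ (s : ℤ) * r ∧ |v 0 + r * v 1| ≤ (s : ℤ) * r := by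
  unfold hex
  simp only [Finset.mem_image, Finset.mem_sigma, Finset.mem_Icc, abs_le, max_le_iff, le_min_iff]
  constructor
  · rintro ⟨⟨y, x⟩, h, rfl⟩
    simp only [Matrix.cons_val_zero, Matrix.cons_val_one] at h ⊢
    obtain ⟨⟨h1, h2⟩, ⟨h3, h4⟩, h5, h6⟩ := h
    refine ⟨⟨h1, h2⟩, ⟨h3, h5⟩, ?_, ?_⟩ <;> linarith
  · rintro ⟨⟨h1, h2⟩, ⟨h3, h5⟩, h4, h6⟩
    refine ⟨⟨v 1, v 0⟩, ⟨⟨h1, h2⟩, ⟨h3, by linarith⟩, h5, by linarith⟩, ?_⟩
    ext i
    fin_cases i <;> rfl

lemma inj_pair : Function.Injective (fun p : (_ : ℤ) × ℤ => (![p.2, p.1] : Fin 2 → ℤ)) := by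
  rintro ⟨a, b⟩ ⟨c, d⟩ h
  have h0 := congrFun h 0
  have h1 := congrFun h 1
  simp only [Matrix.cons_val_zero, Matrix.cons_val_one] at h0 h1
  subst h0
  subst h1
  rfl

lemma card_hex_one (r : ℕ) : (hex 1 r).card = 4 * r + 3 := by
  unfold hex
  rw [Finset.card_image_of_injective _ inj_pair, Finset.card_sigma]
  have : (Finset.Icc (-((1 : ℕ) : ℤ)) ((1 : ℕ) : ℤ)) = {-1, 0, 1} := by decide
  rw [this]
  rw [Finset.sum_insert (by decide), Finset.sum_insert (by decide), Finset.sum_singleton]
  simp only [Int.card_Icc]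
  push_cast
  omega

lemma card_hex_two (r : ℕ) : (hex 2 r).card = 14 * r + 5 := by
  unfold hex
  rw [Finset.card_image_of_injective _ inj_pair, Finset.card_sigma]
  have : (Finset.Icc (-((2 : ℕ) : ℤ)) ((2 : ℕ) : ℤ)) = {-2, -1, 0, 1, 2} := by decide
  rw [this]
  rw [Finset.sum_insert (by decide), Finset.sum_insert (by decide), Finset.sum_insert (by decide),
    Finset.sum_insert (by decide), Finset.sum_singleton]
  simp only [Int.card_Icc]
  push_cast
  omega

lemma hex_sub {r : ℕ} {v w : Fin 2 → ℤ} (hv : v ∈ hex 1 r) (hw : w ∈ hex 1 r) :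
    v - w ∈ hex 2 r := by
  rw [mem_hex] at *
  obtain ⟨a1, a2, a3⟩ := hv
  obtain ⟨b1, b2, b3⟩ := hw
  simp only [abs_le, Pi.sub_apply] at *
  push_cast at *
  refine ⟨⟨?_, ?_⟩, ⟨?_, ?_⟩, ?_, ?_⟩ <;> nlinarith

/-- one sector of the hexagon -/
lemma sector {r x y u v : ℤ} (hr : 0 ≤ r) (h1 : |v| ≤ 2) (h2 : |u| ≤ 2 * r)
    (h3 : |u + r * v| ≤ 2 * r) (hy : |y| ≤ 2) (hx : |x| ≤ 2 * r) (hxy : |x + r * y| ≤ 2 * r)
    (x0 : 0 ≤ x) : |x * v - y * u| ≤ 4 * r := by
  rw [abs_le] at h1 h2 h3 hy hx hxy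
  rcases le_total 0 y with y0 | y0
  · rw [abs_le]
    constructor <;> nlinarith [mul_nonneg x0 (sub_nonneg.2 h1.2),
      mul_nonneg x0 (neg_le_iff_add_nonneg.1 h1.1), mul_nonneg y0 (sub_nonneg.2 h2.2),
      mul_nonneg y0 (neg_le_iff_add_nonneg.1 h2.1)]
  · rcases le_total 0 (x + r * y) with c | c
    · have y1 : 0 ≤ -y := by linarith
      rw [abs_le]
      constructor <;> nlinarith [mul_nonneg c (sub_nonneg.2 h1.2),
        mul_nonneg c (neg_le_iff_add_nonneg.1 h1.1), mul_nonneg y1 (sub_nonneg.2 h3.2),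
        mul_nonneg y1 (neg_le_iff_add_nonneg.1 h3.1)]
    · rcases hr.eq_or_lt with r0 | r0
      · subst r0
        have : x = 0 := by linarith
        have hu : u = 0 := by linarith
        subst this
        subst hu
        simp
      · have c' : 0 ≤ -(x + r * y) := by linarith
        have e1 : r * |x * v - y * u| ≤ r * (4 * r) := by
          rw [← abs_of_pos r0, ← abs_mul, abs_of_pos r0, abs_le]
          constructor <;> nlinarith [mul_nonneg c' (sub_nonneg.2 h2.2),
            mul_nonneg c' (neg_le_iff_add_nonneg.1 h2.1), mul_nonneg x0 (sub_nonneg.2 h3.2),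
            mul_nonneg x0 (neg_le_iff_add_nonneg.1 h3.1),
            mul_nonneg (mul_nonneg hr hr) (neg_le_iff_add_nonneg.1 hy.1)]
        exact le_of_mul_le_mul_left e1 r0

lemma planar {r x y u v : ℤ} (hr : 0 ≤ r) (h1 : |v| ≤ 2) (h2 : |u| ≤ 2 * r)
    (h3 : |u + r * v| ≤ 2 * r) (hy : |y| ≤ 2) (hx : |x| ≤ 2 * r) (hxy : |x + r * y| ≤ 2 * r) :
    |x * v - y * u| ≤ 4 * r := by
  rcases le_total 0 x with x0 | x0
  · exact sector hr h1 h2 h3 hy hx hxy x0
  · have := sector (x := -x) (y := -y) hr h1 h2 h3 (by rwa [abs_neg]) (by rwa [abs_neg])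
      (by rw [← abs_neg]; convert hxy using 2; ring) (by linarith)
    rw [← abs_neg]
    convert this using 2
    ring

lemma hex_det (r : ℕ) (c : Fin 2 → (Fin 2 → ℤ)) (hc : ∀ i, c i ∈ hex 2 r) :
    |(Matrix.of c).det| ≤ 4 * r := by
  have h0 := mem_hex.1 (hc 0)
  have h1 := mem_hex.1 (hc 1)
  rw [Matrix.det_fin_two]
  simp only [Matrix.of_apply]
  have := planar (r := r) (x := c 0 0) (y := c 0 1) (u := c 1 0) (v := c 1 1) (by positivity)
    (by simpa using h1.1) (by simpa using h1.2.1) (by simpa using h1.2.2)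
    (by simpa using h0.1) (by simpa using h0.2.1) (by simpa using h0.2.2)
  exact this

/-! ### pendant coordinates -/

/-- new first coordinate -/
def ext {n : ℕ} (t : ℤ) (v : Fin n → ℤ) : Fin (n + 1) → ℤ := Fin.cons t v

@[simp] lemma ext_zero {n : ℕ} (t : ℤ) (v : Fin n → ℤ) : ext t v 0 = t := rfl
@[simp] lemma ext_succ {n : ℕ} (t : ℤ) (v : Fin n → ℤ) (i : Fin n) : ext t v i.succ = v i := rfl

lemma ext_inj {n : ℕ} {t t' : ℤ} {v v' : Fin n → ℤ} (h : ext t v = ext t' v') :
    t = t' ∧ v = v' := by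
  refine ⟨congrFun h 0, ?_⟩
  ext i
  exact congrFun h i.succ

lemma ext_sub {n : ℕ} (t t' : ℤ) (v v' : Fin n → ℤ) :
    ext t v - ext t' v' = ext (t - t') (v - v') := by
  ext i
  refine Fin.cases ?_ (fun i => ?_) i <;> simp

/-- the new set of vectors -/
noncomputable def stepS {n : ℕ} (S H : Finset (Fin n → ℤ)) : Finset (Fin (n + 1) → ℤ) :=
  (S.image (ext 0)) ∪ ((H.image fun h => ext 1 (-h)) ∪ (H.image fun h => ext (-1) h))

/-- the new set of points -/
noncomputable def stepH {n : ℕ} (H : Finset (Fin n → ℤ)) : Finset (Fin (n + 1) → ℤ) :=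
  insert (ext 1 0) (H.image (ext 0))

lemma card_stepH {n : ℕ} (H : Finset (Fin n → ℤ)) : (stepH H).card = H.card + 1 := by
  unfold stepH
  rw [Finset.card_insert_of_notMem, Finset.card_image_of_injective]
  · intro a b h
    exact (ext_inj h).2
  · intro h
    rw [Finset.mem_image] at h
    obtain ⟨a, -, h⟩ := h
    exact absurd (ext_inj h).1 (by norm_num)

lemma card_stepS {n : ℕ} (S H : Finset (Fin n → ℤ)) :
    (stepS S H).card = S.card + 2 * H.card := by
  unfold stepS
  rw [Finset.card_union_of_disjoint, Finset.card_union_of_disjoint,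
    Finset.card_image_of_injective, Finset.card_image_of_injective, Finset.card_image_of_injective]
  · ring
  · intro a b h
    exact (ext_inj h).2
  · intro a b h
    exact neg_injective (ext_inj h).2
  · intro a b h
    exact (ext_inj h).2
  · rw [Finset.disjoint_left]
    intro x hx hy
    rw [Finset.mem_image] at hx hy
    obtain ⟨a, -, rfl⟩ := hx
    obtain ⟨b, -, h⟩ := hy
    exact absurd (ext_inj h).1 (by norm_num)
  · rw [Finset.disjoint_left]
    intro x hx hy
    rw [Finset.mem_union, Finset.mem_image, Finset.mem_image] at hy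
    rw [Finset.mem_image] at hx
    obtain ⟨a, -, rfl⟩ := hx
    rcases hy with ⟨b, -, h⟩ | ⟨b, -, h⟩
    · exact absurd (ext_inj h).1 (by norm_num)
    · exact absurd (ext_inj h).1 (by norm_num)

lemma step_sub {n : ℕ} {S H : Finset (Fin n → ℤ)} (h0 : (0 : Fin n → ℤ) ∈ S)
    (hsub : ∀ h ∈ H, ∀ h' ∈ H, h - h' ∈ S) :
    ∀ h ∈ stepH H, ∀ h' ∈ stepH H, h - h' ∈ stepS S H := by
  intro h hh h' hh'
  unfold stepH at hh hh'
  unfold stepS
  rw [Finset.mem_insert, Finset.mem_image] at hh hh'
  rw [Finset.mem_union, Finset.mem_union, Finset.mem_image, Finset.mem_image, Finset.mem_image]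
  rcases hh with rfl | ⟨a, ha, rfl⟩ <;> rcases hh' with rfl | ⟨b, hb, rfl⟩
  · left
    exact ⟨0, h0, by rw [ext_sub]; simp⟩
  · right; left
    exact ⟨b, hb, by rw [ext_sub]; simp⟩
  · right; right
    exact ⟨a, ha, by rw [ext_sub]; simp⟩
  · left
    exact ⟨a - b, hsub a ha b hb, by rw [ext_sub]; simp⟩

/-- A matrix whose first column has a single non-zero entry, equal to `± 1`. -/
lemma det_single {n : ℕ} (B : Matrix (Fin (n + 1)) (Fin (n + 1)) ℤ) (k : Fin (n + 1))
    (h1 : |B k 0| = 1) (h0 : ∀ i, i ≠ k → B i 0 = 0) :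
    |B.det| = |(B.submatrix k.succAbove Fin.succ).det| := by
  rw [Matrix.det_succ_column_zero, Finset.sum_eq_single k]
  · rw [abs_mul, abs_mul, h1, mul_one, abs_pow, abs_neg, abs_one, one_pow, one_mul]
  · intro i _ hi
    rw [h0 i hi]
    ring
  · intro h
    exact absurd (Finset.mem_univ _) h

lemma det_step {n : ℕ} {Δ : ℤ} (hΔ : 0 ≤ Δ) {S H : Finset (Fin n → ℤ)}
    (hsub : ∀ h ∈ H, ∀ h' ∈ H, h - h' ∈ S)
    (hdet : ∀ c : Fin n → (Fin n → ℤ), (∀ i, c i ∈ S) → |(Matrix.of c).det| ≤ Δ)
    (c : Fin (n + 1) → (Fin (n + 1) → ℤ)) (hc : ∀ i, c i ∈ stepS S H) :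
    |(Matrix.of c).det| ≤ Δ := by
  by_cases hz : ∀ i, c i 0 = 0
  · rw [Matrix.det_eq_zero_of_column_eq_zero 0 (fun i => by simpa using hz i)]
    simpa using hΔ
  · push Not at hz
    obtain ⟨k, hk⟩ := hz
    -- normal form of the rows
    have form : ∀ i, (c i 0 = 0 ∧ (fun j : Fin n => c i j.succ) ∈ S) ∨
        (c i 0 = 1 ∧ (fun j : Fin n => -c i j.succ) ∈ H) ∨
        (c i 0 = -1 ∧ (fun j : Fin n => c i j.succ) ∈ H) := by
      intro i
      have := hc i
      unfold stepS at this
      rw [Finset.mem_union, Finset.mem_union, Finset.mem_image, Finset.mem_image,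
        Finset.mem_image] at this
      rcases this with ⟨a, ha, e⟩ | ⟨a, ha, e⟩ | ⟨a, ha, e⟩
      · left
        rw [← e]
        exact ⟨rfl, ha⟩
      · right; left
        rw [← e]
        refine ⟨rfl, ?_⟩
        convert ha using 1
        ext j
        simp
      · right; right
        rw [← e]
        exact ⟨rfl, ha⟩
    -- subtract multiples of row `k`
    set B : Matrix (Fin (n + 1)) (Fin (n + 1)) ℤ :=
      fun i j => if i = k then c k j else c i j - c i 0 * c k 0 * c k j with hB
    have hk1 : c k 0 * c k 0 = 1 := by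
      rcases form k with ⟨h, -⟩ | ⟨h, -⟩ | ⟨h, -⟩
      · exact absurd h hk
      · rw [h]; norm_num
      · rw [h]; norm_num
    have hdetB : (Matrix.of c).det = B.det := by
      refine Matrix.det_eq_of_forall_row_eq_smul_add_const
        (fun i => if i = k then 0 else c i 0 * c k 0) k (by simp) ?_
      intro i j
      by_cases hi : i = k
      · subst hi
        simp [hB]
      · simp [hB, hi]
    rw [hdetB, det_single B k]
    · have := hdet (fun i j => B (k.succAbove i) j.succ) ?_
      · exact this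
      · intro i
        have hne : k.succAbove i ≠ k := Fin.succAbove_ne k i
        set p := k.succAbove i with hp
        have hrow : (fun j : Fin n => B p j.succ) =
            fun j : Fin n => c p j.succ - c p 0 * c k 0 * c k j.succ := by
          ext j
          simp [hB, hne]
        show (fun j : Fin n => B p j.succ) ∈ S
        rw [hrow]
        rcases form p with ⟨h, hs⟩ | ⟨h, hs⟩ | ⟨h, hs⟩ <;>
          rcases form k with ⟨g, gs⟩ | ⟨g, gs⟩ | ⟨g, gs⟩
        · exact absurd g hk
        · convert hs using 1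
          ext j
          rw [h]; ring
        · convert hs using 1
          ext j
          rw [h]; ring
        · exact absurd g hk
        · convert hsub _ gs _ hs using 1
          ext j
          rw [h, g]
          simp only [Pi.sub_apply]
          ring
        · convert hsub _ gs _ hs using 1
          ext j
          rw [h, g]
          simp only [Pi.sub_apply]
          ring
        · exact absurd g hk
        · convert hsub _ hs _ gs using 1
          ext j
          rw [h, g]
          simp only [Pi.sub_apply]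
          ring
        · convert hsub _ hs _ gs using 1
          ext j
          rw [h, g]
          simp only [Pi.sub_apply]
          ring
    · have : B k 0 = c k 0 := by simp [hB]
      rw [this]
      rcases form k with ⟨h, -⟩ | ⟨h, -⟩ | ⟨h, -⟩
      · exact absurd h hk
      · rw [h]; norm_num
      · rw [h]; norm_num
    · intro i hi
      simp only [hB, hi, if_false]
      rw [mul_assoc, hk1]
      ring

/-- the points -/
noncomputable def HH (r : ℕ) : (k : ℕ) → Finset (Fin (k + 2) → ℤ)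
  | 0 => hex 1 r
  | k + 1 => stepH (HH r k)

/-- the vectors -/
noncomputable def SS (r : ℕ) : (k : ℕ) → Finset (Fin (k + 2) → ℤ)
  | 0 => hex 2 r
  | k + 1 => stepS (SS r k) (HH r k)

lemma card_HH (r k : ℕ) : (HH r k).card = 4 * r + 3 + k := by
  induction k with
  | zero => exact card_hex_one r
  | succ k ih =>
    show (stepH (HH r k)).card = _
    rw [card_stepH, ih]
    ring

lemma card_SS (r k : ℕ) :
    ((SS r k).card : ℤ) = 14 * r + 5 + 2 * k * (4 * r + 3) + k * (k - 1) := by
  induction k with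
  | zero =>
    show ((hex 2 r).card : ℤ) = _
    rw [card_hex_two]
    push_cast
    ring
  | succ k ih =>
    show ((stepS (SS r k) (HH r k)).card : ℤ) = _
    rw [card_stepS, card_HH]
    push_cast
    rw [ih]
    ring

lemma main (r k : ℕ) : (0 : Fin (k + 2) → ℤ) ∈ HH r k ∧
    (∀ h ∈ HH r k, ∀ h' ∈ HH r k, h - h' ∈ SS r k) ∧
    (∀ c : Fin (k + 2) → (Fin (k + 2) → ℤ), (∀ i, c i ∈ SS r k) →
      |(Matrix.of c).det| ≤ 4 * r) ∧
    (∃ c : Fin (k + 2) → (Fin (k + 2) → ℤ), (∀ i, c i ∈ SS r k) ∧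
      |(Matrix.of c).det| = 4 * r) := by
  induction k with
  | zero =>
    refine ⟨?_, fun h hh h' hh' => hex_sub hh hh', hex_det r, ?_⟩
    · show (0 : Fin 2 → ℤ) ∈ hex 1 r
      rw [mem_hex]
      simp
    · refine ⟨![![2 * r, 0], ![0, 2]], ?_, ?_⟩
      · intro i
        show _ ∈ hex 2 r
        rw [mem_hex]
        fin_cases i
        · simp [abs_of_nonneg]
        · simp [abs_of_nonneg, mul_comm]
      · rw [Matrix.det_fin_two]
        simp [abs_of_nonneg]
        ring
  | succ k ih =>
    obtain ⟨h0, hsub, hdet, c, hc, hcd⟩ := ih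
    have hS0 : (0 : Fin (k + 2) → ℤ) ∈ SS r k := by
      have := hsub 0 h0 0 h0
      simpa using this
    refine ⟨?_, step_sub hS0 hsub, det_step (by positivity) hsub hdet, ?_⟩
    · show _ ∈ stepH (HH r k)
      unfold stepH
      rw [Finset.mem_insert, Finset.mem_image]
      right
      refine ⟨0, h0, ?_⟩
      ext i
      refine Fin.cases ?_ (fun i => ?_) i <;> simp
    · refine ⟨Fin.cons (ext 1 (-0)) (fun i => ext 0 (c i)), ?_, ?_⟩
      · intro i
        show _ ∈ stepS (SS r k) (HH r k)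
        unfold stepS
        rw [Finset.mem_union, Finset.mem_union, Finset.mem_image, Finset.mem_image,
          Finset.mem_image]
        refine Fin.cases ?_ (fun i => ?_) i
        · right; left
          exact ⟨0, h0, rfl⟩
        · left
          exact ⟨c i, hc i, rfl⟩
      · rw [det_single _ 0]
        · rw [← hcd]
          congr 2
        · simp
        · intro i hi
          obtain ⟨j, rfl⟩ := Fin.exists_succ_eq.2 hi
          simp

end Pool.Agent.H281.Hel
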