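import Pool.Agent.H281.Hel.App2
import Pool.Agent.H281.Hel.Family

/-!
# Integer matrices with a unimodular direction
-/

set_option autoImplicit false

namespace Pool.Agent.H281.Hel

open Finset

lemma prod_sign {ι : Type*} (s : Finset ι) (ε : ι → ℚ) (h : ∀ i ∈ s, ε i = 1 ∨ ε i = -1) :
    ∏ i ∈ s, ε i = 1 ∨ ∏ i ∈ s, ε i = -1 := by
  refine Finset.prod_induction ε (fun x => x = 1 ∨ x = -1) ?_ (Or.inl rfl) h
  rintro a b (rfl | rfl) (rfl | rfl) <;> norm_num

lemma det_smul_rows {k : ℕ} (M w : Fin (k + 1) → (Fin (k + 1) → ℚ)) (ε : Fin (k + 1) → ℚ)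
    (h : ∀ i, M i = ε i • w i) :
    Matrix.det (Matrix.of M) = (∏ i, ε i) * Matrix.det (Matrix.of w) := by
  rw [← Matrix.det_mul_column]
  congr 1
  ext i j
  show M i j = ε i * w i j
  rw [h i]
  rfl

section

variable {k n : ℕ} (A : Matrix (Fin (k + 1)) (Fin n) ℤ)

/-- rational columns -/
def colQ (j : Fin n) : Fin (k + 1) → ℚ := fun i => (A i j : ℚ)

lemma det_colQ (g : Fin (k + 1) → Fin n) :
    Matrix.det (Matrix.of (fun i => colQ A (g i))) = ((A.submatrix id g).det : ℚ) := by
  rw [Int.cast_det, ← Matrix.det_transpose]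
  rfl

lemma det_cons_colQ (v : Fin (k + 1) → ℤ) (s : Fin (k + 1) → Fin n) :
    Matrix.det (Matrix.of (Fin.cons (fun i => (v i : ℚ)) (fun i : Fin k => colQ A (s i.succ)) :
      Fin (k + 1) → (Fin (k + 1) → ℚ))) = (((A.submatrix id s).updateCol 0 v).det : ℚ) := by
  rw [Int.cast_det, ← Matrix.det_transpose]
  congr 1
  ext i j
  rw [Matrix.transpose_apply, Matrix.map_apply]
  refine Fin.cases ?_ (fun j => ?_) j
  · rw [Matrix.updateCol_self]
    rfl
  · rw [Matrix.updateCol_ne (Fin.succ_ne_zero j)]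
    rfl

/-- columns and their negatives -/
noncomputable def XX : Finset (Fin (k + 1) → ℚ) :=
  (Finset.univ.image (colQ A)) ∪ (Finset.univ.image (fun j => -colQ A j))

lemma mem_XX {x : Fin (k + 1) → ℚ} :
    x ∈ XX A ↔ ∃ (ε : ℚ) (j : Fin n), (ε = 1 ∨ ε = -1) ∧ x = ε • colQ A j := by
  unfold XX
  rw [Finset.mem_union, Finset.mem_image, Finset.mem_image]
  constructor
  · rintro (⟨j, -, rfl⟩ | ⟨j, -, rfl⟩)
    · exact ⟨1, j, Or.inl rfl, (one_smul ℚ _).symm⟩
    · exact ⟨-1, j, Or.inr rfl, by rw [neg_smul, one_smul]⟩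
  · rintro ⟨ε, j, rfl | rfl, rfl⟩
    · exact Or.inl ⟨j, Finset.mem_univ j, (one_smul ℚ _).symm⟩
    · exact Or.inr ⟨j, Finset.mem_univ j, by rw [neg_smul, one_smul]⟩

variable {A}

lemma dat {Δ : ℕ} (hdet : ∀ s : Fin (k + 1) → Fin n, |(A.submatrix id s).det| ≤ (Δ : ℤ))
    (hrank : ∃ s : Fin (k + 1) → Fin n, (A.submatrix id s).det ≠ 0)
    {v : Fin (k + 1) → ℤ} (hv : v ≠ 0) {D : ℤ}
    (hD : ∀ (s : Fin (k + 1) → Fin n) (i : Fin (k + 1)),
      ((A.submatrix id s).updateCol i v).det = 0 ∨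
      ((A.submatrix id s).updateCol i v).det = D ∨
      ((A.submatrix id s).updateCol i v).det = -D) :
    Dat (XX A) ((D : ℚ)⁻¹ • fun i => (v i : ℚ)) Δ := by
  obtain ⟨s₀, hs₀⟩ := hrank
  have hD0 : D ≠ 0 := by
    rintro rfl
    apply hv
    have h1 : (A.submatrix id s₀).cramer v = 0 := by
      ext i
      rw [Matrix.cramer_apply, Pi.zero_apply]
      rcases hD s₀ i with h | h | h
      · exact h
      · exact h
      · rw [h, neg_zero]
    have h2 := Matrix.mulVec_cramer (A.submatrix id s₀) v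
    rw [h1, Matrix.mulVec_zero] at h2
    exact (smul_eq_zero.1 h2.symm).resolve_left hs₀
  have hDq : (D : ℚ) ≠ 0 := by exact_mod_cast hD0
  refine ⟨?_, ?_, ?_, ?_, ?_⟩
  · intro h
    apply hv
    have h1 := (smul_eq_zero.1 h).resolve_left (inv_ne_zero hDq)
    ext i
    have h2 : ((v i : ℤ) : ℚ) = 0 := congrFun h1 i
    exact_mod_cast h2
  · intro x hx
    rw [mem_XX] at hx ⊢
    obtain ⟨ε, j, hε, rfl⟩ := hx
    refine ⟨-ε, j, ?_, by rw [neg_smul]⟩
    rcases hε with rfl | rfl
    · right; rfl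
    · left; norm_num
  · have hli : LinearIndependent ℚ (fun i => colQ A (s₀ i)) := by
      have : IsUnit (Matrix.of (fun i => colQ A (s₀ i))) := by
        rw [Matrix.isUnit_iff_isUnit_det, det_colQ, isUnit_iff_ne_zero]
        exact_mod_cast hs₀
      exact (Matrix.linearIndependent_rows_iff_isUnit
        (A := Matrix.of (fun i => colQ A (s₀ i)))).2 this
    have htop := hli.span_eq_top_of_card_eq_finrank (by
      rw [Module.finrank_fin_fun, Fintype.card_fin])
    rw [eq_top_iff, ← htop]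
    refine Submodule.span_mono ?_
    rintro x ⟨i, rfl⟩
    rw [Finset.mem_coe, mem_XX]
    exact ⟨1, s₀ i, Or.inl rfl, (one_smul ℚ _).symm⟩
  · intro M hM
    have hM' := fun i => (mem_XX A).1 (hM i)
    choose ε g hε hMe using hM'
    have h1 := det_smul_rows M (fun i => colQ A (g i)) ε hMe
    rw [det_colQ] at h1
    rcases prod_sign Finset.univ ε (fun i _ => hε i) with h | h
    · refine ⟨(A.submatrix id g).det, ?_, hdet g⟩
      rw [h1, h, one_mul]
    · refine ⟨-(A.submatrix id g).det, ?_, ?_⟩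
      · rw [h1, h]
        push_cast
        ring
      · rw [abs_neg]
        exact hdet g
  · intro R hR
    have hR' := fun i => (mem_XX A).1 (hR i)
    choose ε g hε hRe using hR'
    have h1 := det_smul_rows
      (Fin.cons ((D : ℚ)⁻¹ • fun i => (v i : ℚ)) R : Fin (k + 1) → (Fin (k + 1) → ℚ))
      (Fin.cons (fun i => (v i : ℚ)) (fun i => colQ A (g i)))
      (Fin.cons (D : ℚ)⁻¹ ε) (by
        intro i
        refine Fin.cases ?_ (fun j => ?_) i
        · rfl
        · exact hRe j)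
    have h2 := det_cons_colQ A v (Fin.cons (s₀ 0) g)
    simp only [Fin.cons_succ] at h2
    rw [h2, Fin.prod_cons] at h1
    have h3 := hD (Fin.cons (s₀ 0) g) 0
    rw [h1]
    rcases prod_sign Finset.univ ε (fun i _ => hε i) with h | h <;>
      rcases h3 with h4 | h4 | h4 <;> rw [h, h4] <;> push_cast
    · left; ring
    · right; left; field_simp
    · right; right; field_simp
    · left; ring
    · right; right; field_simp
    · right; left; field_simp

lemma card_XX (hA : Function.Injective (fun (j : Fin n) (i : Fin (k + 1)) => A i j)) :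
    n ≤ (XX A).card := by
  have h1 : (Finset.univ.image (colQ A)).card = n := by
    rw [Finset.card_image_of_injective, Finset.card_univ, Fintype.card_fin]
    intro a b h
    apply hA
    ext i
    have : ((A i a : ℤ) : ℚ) = A i b := congrFun h i
    exact_mod_cast this
  conv_lhs => rw [← h1]
  exact Finset.card_le_card Finset.subset_union_left

theorem bound {Δ : ℕ} (hA : Function.Injective (fun (j : Fin n) (i : Fin (k + 1)) => A i j))
    (hdet : ∀ s : Fin (k + 1) → Fin n, |(A.submatrix id s).det| ≤ (Δ : ℤ))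
    (hrank : ∃ s : Fin (k + 1) → Fin n, (A.submatrix id s).det ≠ 0)
    {v : Fin (k + 1) → ℤ} (hv : v ≠ 0) {D : ℤ}
    (hD : ∀ (s : Fin (k + 1) → Fin n) (i : Fin (k + 1)),
      ((A.submatrix id s).updateCol i v).det = 0 ∨
      ((A.submatrix id s).updateCol i v).det = D ∨
      ((A.submatrix id s).updateCol i v).det = -D) :
    n ≤ (2 * Δ + 1) + k * (2 * Δ + (k + 1)) := by
  have h1 := (dat hdet hrank hv hD).bound
  have h2 : (n : ℚ) ≤ ((XX A).card : ℚ) := by exact_mod_cast card_XX hA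
  have h3 : (n : ℚ) ≤ ((2 * Δ + 1 + k * (2 * Δ + (k + 1)) : ℕ) : ℚ) := by
    push_cast
    linarith
  exact_mod_cast h3

end

/-- long lattice directions are unimodular -/
lemma dir_of_long {m n : ℕ} {A : Matrix (Fin m) (Fin n) ℤ} {Δ : ℕ}
    (hdet : ∀ s : Fin m → Fin n, |(A.submatrix id s).det| ≤ (Δ : ℤ)) {w : Fin m → ℤ} {t : ℝ}
    (ht : (Δ : ℝ) < 2 * t)
    (hw : (fun i => t * (w i : ℝ)) ∈ convexHull ℝ {x : Fin m → ℝ | ∃ j : Fin n,
      x = (fun i => (A i j : ℝ)) ∨ x = fun i => -(A i j : ℝ)})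
    (s : Fin m → Fin n) (i : Fin m) :
    ((A.submatrix id s).updateCol i w).det = 0 ∨
      ((A.submatrix id s).updateCol i w).det = 1 ∨
      ((A.submatrix id s).updateCol i w).det = -1 := by
  set B : Matrix (Fin m) (Fin m) ℝ := (A.submatrix id s).map (fun x : ℤ => (x : ℝ)) with hB
  have hcast : ∀ y : Fin m → ℤ, B.cramer (fun i => (y i : ℝ)) i =
      (((A.submatrix id s).updateCol i y).det : ℝ) := by
    intro y
    rw [Matrix.cramer_apply, Int.cast_det]
    congr 1
    ext a b
    rw [Matrix.map_apply, Matrix.updateCol_apply, Matrix.updateCol_apply]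
    split_ifs
    · rfl
    · rfl
  have hcol : ∀ j : Fin n, |B.cramer (fun i => (A i j : ℝ)) i| ≤ Δ := by
    intro j
    rw [hcast (fun i => A i j)]
    have h1 : (A.submatrix id s).updateCol i (fun i => A i j) =
        A.submatrix id (Function.update s i j) := by
      ext a b
      rw [Matrix.updateCol_apply, Matrix.submatrix_apply]
      by_cases h : b = i
      · rw [if_pos h, h, Matrix.submatrix_apply, Function.update_self]
        rfl
      · rw [if_neg h, Matrix.submatrix_apply, Function.update_of_ne h]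
    rw [h1, ← Int.cast_abs]
    exact_mod_cast hdet _
  let L : (Fin m → ℝ) →ₗ[ℝ] ℝ := (LinearMap.proj i).comp B.cramer
  have hconv : Convex ℝ (L ⁻¹' (Set.Icc (-(Δ : ℝ)) Δ)) := (convex_Icc _ _).linear_preimage L
  have hmem : (fun i => t * (w i : ℝ)) ∈ L ⁻¹' (Set.Icc (-(Δ : ℝ)) Δ) := by
    refine convexHull_min ?_ hconv hw
    rintro x ⟨j, rfl | rfl⟩
    · exact abs_le.1 (hcol j)
    · have h1 : L (fun i => -(A i j : ℝ)) = - B.cramer (fun i => (A i j : ℝ)) i := by
        have : (fun i => -(A i j : ℝ)) = -(fun i => (A i j : ℝ)) := rfl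
        rw [this, map_neg]
        rfl
      rw [Set.mem_preimage, h1, Set.mem_Icc]
      have := abs_le.1 (hcol j)
      constructor <;> linarith [this.1, this.2]
  have h2 : L (fun i => t * (w i : ℝ)) = t * (((A.submatrix id s).updateCol i w).det : ℝ) := by
    have : (fun i => t * (w i : ℝ)) = t • (fun i => (w i : ℝ)) := rfl
    rw [this, map_smul, ← hcast w]
    rfl
  rw [Set.mem_preimage, h2, Set.mem_Icc] at hmem
  set d := ((A.submatrix id s).updateCol i w).det with hd
  have ht0 : 0 < t := by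
    have : (0 : ℝ) ≤ Δ := Nat.cast_nonneg Δ
    linarith
  have h3 : (d : ℝ) < 2 := by
    by_contra h
    push Not at h
    nlinarith [hmem.2]
  have h4 : (-2 : ℝ) < d := by
    by_contra h
    push Not at h
    nlinarith [hmem.1]
  have h5 : d < 2 := by exact_mod_cast h3
  have h6 : -2 < d := by exact_mod_cast h4
  omega

/-! ### the extremal example -/

/-- the points -/
noncomputable def H1 (Δ : ℕ) : (k : ℕ) → Finset (Fin (k + 1) → ℤ)
  | 0 => (Finset.Icc (0 : ℤ) Δ).image (fun a _ => a)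
  | k + 1 => stepH (H1 Δ k)

/-- the vectors -/
noncomputable def S1 (Δ : ℕ) : (k : ℕ) → Finset (Fin (k + 1) → ℤ)
  | 0 => (Finset.Icc (-(Δ : ℤ)) Δ).image (fun a _ => a)
  | k + 1 => stepS (S1 Δ k) (H1 Δ k)

lemma const_inj : Function.Injective (fun (a : ℤ) (_ : Fin 1) => a) := fun _ _ h => congrFun h 0

lemma card_H1 (Δ k : ℕ) : (H1 Δ k).card = Δ + 1 + k := by
  induction k with
  | zero =>
    show ((Finset.Icc (0 : ℤ) Δ).image (fun (a : ℤ) (_ : Fin 1) => a)).card = _
    rw [Finset.card_image_of_injective _ const_inj, Int.card_Icc]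
    omega
  | succ k ih =>
    show (stepH (H1 Δ k)).card = _
    rw [card_stepH, ih]
    ring

lemma card_S1 (Δ k : ℕ) : (S1 Δ k).card = (2 * Δ + 1) + k * (2 * Δ + (k + 1)) := by
  induction k with
  | zero =>
    show ((Finset.Icc (-(Δ : ℤ)) Δ).image (fun (a : ℤ) (_ : Fin 1) => a)).card = _
    rw [Finset.card_image_of_injective _ const_inj, Int.card_Icc]
    omega
  | succ k ih =>
    show (stepS (S1 Δ k) (H1 Δ k)).card = _
    rw [card_stepS, card_H1, ih]
    ring

lemma main1 (Δ k : ℕ) : (0 : Fin (k + 1) → ℤ) ∈ H1 Δ k ∧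
    (∀ h ∈ H1 Δ k, ∀ h' ∈ H1 Δ k, h - h' ∈ S1 Δ k) ∧
    (∀ c : Fin (k + 1) → (Fin (k + 1) → ℤ), (∀ i, c i ∈ S1 Δ k) →
      |(Matrix.of c).det| ≤ Δ) ∧
    (∃ c : Fin (k + 1) → (Fin (k + 1) → ℤ), (∀ i, c i ∈ S1 Δ k) ∧
      |(Matrix.of c).det| = Δ) ∧
    (fun i : Fin (k + 1) => if i = Fin.last k then (Δ : ℤ) else 0) ∈ S1 Δ k := by
  induction k with
  | zero =>
    have hS : ∀ x : Fin 1 → ℤ, x ∈ S1 Δ 0 ↔ |x 0| ≤ Δ := by
      intro x
      show x ∈ (Finset.Icc (-(Δ : ℤ)) Δ).image (fun (a : ℤ) (_ : Fin 1) => a) ↔ _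
      rw [Finset.mem_image]
      constructor
      · rintro ⟨a, ha, rfl⟩
        exact abs_le.2 (Finset.mem_Icc.1 ha)
      · intro h
        refine ⟨x 0, Finset.mem_Icc.2 (abs_le.1 h), ?_⟩
        ext i
        rw [Subsingleton.elim i 0]
    have hH : ∀ x : Fin 1 → ℤ, x ∈ H1 Δ 0 ↔ 0 ≤ x 0 ∧ x 0 ≤ Δ := by
      intro x
      show x ∈ (Finset.Icc (0 : ℤ) Δ).image (fun (a : ℤ) (_ : Fin 1) => a) ↔ _
      rw [Finset.mem_image]
      constructor
      · rintro ⟨a, ha, rfl⟩
        exact Finset.mem_Icc.1 ha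
      · intro h
        refine ⟨x 0, Finset.mem_Icc.2 h, ?_⟩
        ext i
        rw [Subsingleton.elim i 0]
    refine ⟨?_, ?_, ?_, ?_, ?_⟩
    · rw [hH]
      simp
    · intro h hh h' hh'
      rw [hH] at hh hh'
      rw [hS, Pi.sub_apply, abs_le]
      constructor <;> linarith [hh.1, hh.2, hh'.1, hh'.2]
    · intro c hc
      have := (hS _).1 (hc 0)
      rw [Matrix.det_fin_one]
      exact this
    · refine ⟨fun _ _ => Δ, fun i => ?_, ?_⟩
      · rw [hS]
        simp
      · rw [Matrix.det_fin_one]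
        simp
    · rw [hS]
      simp
  | succ k ih =>
    obtain ⟨h0, hsub, hdet, ⟨c, hc, hcd⟩, hlast⟩ := ih
    have hS0 : (0 : Fin (k + 1) → ℤ) ∈ S1 Δ k := by
      have := hsub 0 h0 0 h0
      simpa using this
    refine ⟨?_, step_sub hS0 hsub, det_step (by positivity) hsub hdet, ?_, ?_⟩
    · show _ ∈ stepH (H1 Δ k)
      unfold stepH
      rw [Finset.mem_insert, Finset.mem_image]
      right
      refine ⟨0, h0, ?_⟩
      ext i
      refine Fin.cases ?_ (fun i => ?_) i <;> simp
    · refine ⟨Fin.cons (ext 1 (-0)) (fun i => ext 0 (c i)), ?_, ?_⟩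
      · intro i
        show _ ∈ stepS (S1 Δ k) (H1 Δ k)
        unfold stepS
        rw [Finset.mem_union, Finset.mem_union, Finset.mem_image, Finset.mem_image,
          Finset.mem_image]
        refine Fin.cases ?_ (fun i => ?_) i
        · right; left
          exact ⟨0, h0, rfl⟩
        · left
          exact ⟨c i, hc i, rfl⟩
      · rw [det_single _ 0]
        · rw [← hcd]
          congr 2
        · simp
        · intro i hi
          obtain ⟨j, rfl⟩ := Fin.exists_succ_eq.2 hi
          simp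
    · show _ ∈ stepS (S1 Δ k) (H1 Δ k)
      unfold stepS
      rw [Finset.mem_union, Finset.mem_image]
      left
      refine ⟨_, hlast, ?_⟩
      ext i
      refine Fin.cases ?_ (fun i => ?_) i
      · rw [ext_zero, if_neg]
        intro h
        exact absurd h (Fin.last_pos (n := k)).ne
      · rw [ext_succ, ← Fin.succ_last]
        by_cases h : i = Fin.last k
        · rw [if_pos h, if_pos (congrArg Fin.succ h)]
        · rw [if_neg h, if_neg (fun h' => h (Fin.succ_injective _ h'))]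

end Pool.Agent.H281.Hel
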