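import Pool.Agent.H281.Hel.Comb

/-!
# Unimodular systems of vectors, weights, circuits
-/

set_option autoImplicit false

namespace Pool.Agent.H281.Hel

open Finset Classical

variable {V : Type*} [AddCommGroup V] [Module ℚ V]

/-- a finite symmetric set of vectors all of whose dependences have coefficients `0, ±1` -/
structure Uni (S : Finset V) : Prop where
  neg : ∀ s ∈ S, -s ∈ S
  uni : ∀ (T : Finset V) (c : V → ℚ) (s : V), T ⊆ S → LinearIndepOn ℚ id (T : Set V) →
    s ∈ S → s = ∑ t ∈ T, c t • t → ∀ t ∈ T, c t = 0 ∨ c t = 1 ∨ c t = -1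

/-- every circuit has weight at most `W` -/
def Heavy (S : Finset V) (a : V → ℚ) (W : ℚ) : Prop :=
  ∀ (T : Finset V) (c : V → ℚ) (s : V), T.Nonempty → T ⊆ S → LinearIndepOn ℚ id (T : Set V) →
    s ∈ S → s = ∑ t ∈ T, c t • t → (∀ t ∈ T, c t ≠ 0) → a s + ∑ t ∈ T, a t ≤ W

lemma indep_iff {T : Finset V} : LinearIndepOn ℚ id (T : Set V) ↔
    ∀ g : V → ℚ, ∑ t ∈ T, g t • t = 0 → ∀ t ∈ T, g t = 0 := by
  rw [linearIndepOn_finset_iff]
  rfl

lemma indep_mono {T U : Finset V} (h : LinearIndepOn ℚ id (T : Set V)) (hU : U ⊆ T) :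
    LinearIndepOn ℚ id (U : Set V) :=
  h.mono (by exact_mod_cast hU)

lemma map_sum_zero {T : Finset V} (φ : V →ₗ[ℚ] ℚ) (h0 : ∀ t ∈ T, φ t = 0) (g : V → ℚ) :
    φ (∑ t ∈ T, g t • t) = 0 := by
  rw [map_sum]
  refine Finset.sum_eq_zero fun t ht => ?_
  rw [map_smul, h0 t ht, smul_zero]

/-- extension of an independent set by a vector outside of the kernel of a functional -/
lemma indep_insert {T : Finset V} {v : V} (hT : LinearIndepOn ℚ id (T : Set V))
    (φ : V →ₗ[ℚ] ℚ) (h0 : ∀ t ∈ T, φ t = 0) (hv : φ v ≠ 0) :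
    v ∉ T ∧ LinearIndepOn ℚ id ((insert v T : Finset V) : Set V) := by
  have hvT : v ∉ T := fun h => hv (h0 v h)
  refine ⟨hvT, ?_⟩
  rw [indep_iff] at hT ⊢
  intro g hg
  rw [Finset.sum_insert hvT] at hg
  have h1 : g v = 0 := by
    have := congrArg φ hg
    rw [map_add, map_smul, map_sum_zero φ h0 g, map_zero, add_zero, smul_eq_mul] at this
    exact (mul_eq_zero.1 this).resolve_right hv
  rw [h1, zero_smul, zero_add] at hg
  intro t ht
  rcases Finset.mem_insert.1 ht with rfl | ht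
  · exact h1
  · exact hT g hg t ht

/-- `s` is a combination of all the vectors of `T` with non-zero coefficients -/
def Rel (T : Finset V) (s : V) : Prop :=
  ∃ c : V → ℚ, s = ∑ t ∈ T, c t • t ∧ ∀ t ∈ T, c t ≠ 0

lemma Rel.insert {T : Finset V} {s v : V} (h : Rel T s) (hv : v ∉ T) (γ : ℚ) (hγ : γ ≠ 0) :
    Rel (insert v T) (γ • v + s) := by
  obtain ⟨c, h1, h2⟩ := h
  refine ⟨Function.update c v γ, ?_, ?_⟩
  · rw [Finset.sum_insert hv, Function.update_self, h1]
    congr 1
    refine Finset.sum_congr rfl fun t ht => ?_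
    rw [Function.update_of_ne (by rintro rfl; exact hv ht)]
  · intro t ht
    rcases Finset.mem_insert.1 ht with rfl | ht'
    · rwa [Function.update_self]
    · rw [Function.update_of_ne (by rintro rfl; exact hv ht')]
      exact h2 t ht'

lemma Rel.empty : Rel (∅ : Finset V) 0 := ⟨fun _ => 0, by simp, by simp⟩

lemma Heavy.rel {S : Finset V} {a : V → ℚ} {W : ℚ} (h : Heavy S a W) {T : Finset V} {s : V}
    (hne : T.Nonempty) (hT : T ⊆ S) (hi : LinearIndepOn ℚ id (T : Set V)) (hs : s ∈ S)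
    (hr : Rel T s) : a s + ∑ t ∈ T, a t ≤ W := by
  obtain ⟨c, h1, h2⟩ := hr
  exact h T c s hne hT hi hs h1 h2

/-- dual functionals of an independent set -/
lemma exists_dual {J : Finset V} (hJ : LinearIndepOn ℚ id (J : Set V)) :
    ∃ φ : V → (V →ₗ[ℚ] ℚ), ∀ i ∈ J, ∀ j ∈ J, φ i j = if i = j then 1 else 0 := by
  have hb := hJ.subset_extend (Set.subset_univ _)
  set B := Module.Basis.extend hJ with hB
  refine ⟨fun i => if hi : i ∈ (J : Set V) then B.coord ⟨i, hb hi⟩ else 0, ?_⟩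
  intro i hi j hj
  have hi' : i ∈ (J : Set V) := by exact_mod_cast hi
  have hj' : j ∈ (J : Set V) := by exact_mod_cast hj
  have h0 : (if hi : i ∈ (J : Set V) then B.coord ⟨i, hb hi⟩ else 0) = B.coord ⟨i, hb hi'⟩ :=
    dif_pos hi'
  have h1 : B ⟨j, hb hj'⟩ = j := by
    rw [hB, Module.Basis.extend_apply_self]
  show (if hi : i ∈ (J : Set V) then B.coord ⟨i, hb hi⟩ else 0) j = _
  rw [h0]
  conv_lhs => rw [← h1]
  rw [Module.Basis.coord_apply, Module.Basis.repr_self, Finsupp.single_apply]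
  by_cases h : i = j
  · subst h
    simp
  · rw [if_neg, if_neg h]
    intro h'
    exact h (Subtype.ext_iff.1 h').symm

lemma dual_sum {J : Finset V} {φ : V → (V →ₗ[ℚ] ℚ)}
    (hφ : ∀ i ∈ J, ∀ j ∈ J, φ i j = if i = j then 1 else 0) {A : Finset V} (hA : A ⊆ J)
    {x : V} (hx : x ∈ J) : φ x (∑ j ∈ A, j) = if x ∈ A then 1 else 0 := by
  rw [map_sum, Finset.sum_congr rfl (fun j hj => hφ x hx j (hA hj))]
  exact Finset.sum_ite_eq A x (fun _ => (1 : ℚ))

/-- sign normalisation of a circuit -/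
lemma normalise {S : Finset V} {a : V → ℚ} (hS : Uni S) (ha : ∀ s, a (-s) = a s)
    {T : Finset V} {c : V → ℚ} {s : V} (hT : T ⊆ S) (hi : LinearIndepOn ℚ id (T : Set V))
    (hs : s ∈ S) (he : s = ∑ t ∈ T, c t • t) (hc : ∀ t ∈ T, c t ≠ 0) :
    ∃ J : Finset V, J ⊆ S ∧ LinearIndepOn ℚ id (J : Set V) ∧ s = ∑ j ∈ J, j ∧
      ∑ j ∈ J, a j = ∑ t ∈ T, a t := by
  have hc1 : ∀ t ∈ T, c t = 1 ∨ c t = -1 := fun t ht =>
    (hS.uni T c s hT hi hs he t ht).resolve_left (hc t ht)
  have hi' := hi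
  rw [indep_iff] at hi'
  have hinj : Set.InjOn (fun t => c t • t) (T : Set V) := by
    intro t ht t' ht' h
    have ht : t ∈ T := by exact_mod_cast ht
    have ht' : t' ∈ T := by exact_mod_cast ht'
    by_contra hne
    have h2 : ∑ u ∈ T, (if u = t then c t else if u = t' then - c t' else 0) • u = 0 := by
      have : ∀ u ∈ T, (if u = t then c t else if u = t' then - c t' else 0) • u =
          (if u = t then c t • u else 0) + (if u = t' then - (c t' • u) else 0) := by
        intro u _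
        by_cases h3 : u = t
        · have : u ≠ t' := fun h4 => hne (h3 ▸ h4)
          simp [h3, hne]
        · by_cases h4 : u = t'
          · simp [h4, Ne.symm hne]
          · simp [h3, h4]
      rw [Finset.sum_congr rfl this, Finset.sum_add_distrib, Finset.sum_ite_eq' T t,
        Finset.sum_ite_eq' T t', if_pos ht, if_pos ht']
      have h' : c t • t = c t' • t' := h
      rw [h', add_neg_cancel]
    have := hi' _ h2 t ht
    rw [if_pos rfl] at this
    exact hc t ht this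
  refine ⟨T.image (fun t => c t • t), ?_, ?_, ?_, ?_⟩
  · intro j hj
    obtain ⟨t, ht, rfl⟩ := Finset.mem_image.1 hj
    rcases hc1 t ht with h | h
    · simp only [h, one_smul]
      exact hT ht
    · simp only [h, neg_smul, one_smul]
      exact hS.neg t (hT ht)
  · rw [indep_iff]
    intro g hg
    rw [Finset.sum_image hinj] at hg
    have h1 := hi' (fun t => g (c t • t) * c t) (by
      rw [← hg]
      refine Finset.sum_congr rfl fun t _ => ?_
      rw [mul_smul])
    intro j hj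
    obtain ⟨t, ht, rfl⟩ := Finset.mem_image.1 hj
    exact (mul_eq_zero.1 (h1 t ht)).resolve_right (hc t ht)
  · rw [Finset.sum_image hinj, he]
  · rw [Finset.sum_image hinj]
    refine Finset.sum_congr rfl fun t ht => ?_
    rcases hc1 t ht with h | h
    · rw [h, one_smul]
    · rw [h, neg_smul, one_smul, ha]

/-- the heaviest circuit -/
lemma exists_heaviest {S : Finset V} {a : V → ℚ} (hS : Uni S) (ha : ∀ s, a (-s) = a s)
    {s₀ : V} (hs₀ : s₀ ∈ S) (h0 : s₀ ≠ 0) :
    ∃ J : Finset V, J ⊆ S ∧ J.Nonempty ∧ LinearIndepOn ℚ id (J : Set V) ∧ (∑ j ∈ J, j) ∈ S ∧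
      Heavy S a (a (∑ j ∈ J, j) + ∑ j ∈ J, a j) := by
  have hi0 : LinearIndepOn ℚ id (({s₀} : Finset V) : Set V) := by
    rw [indep_iff]
    intro g hg t ht
    rw [Finset.sum_singleton] at hg
    rw [Finset.mem_singleton.1 ht]
    exact (smul_eq_zero.1 hg).resolve_right h0
  obtain ⟨J, hJ, hmax⟩ := Finset.exists_max_image
    (S.powerset.filter (fun J : Finset V => J.Nonempty ∧ LinearIndepOn ℚ id (J : Set V) ∧ (∑ j ∈ J, j) ∈ S))
    (fun J : Finset V => a (∑ j ∈ J, j) + ∑ j ∈ J, a j) ⟨{s₀}, by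
      rw [Finset.mem_filter, Finset.mem_powerset]
      exact ⟨Finset.singleton_subset_iff.2 hs₀, Finset.singleton_nonempty _, hi0,
        by rwa [Finset.sum_singleton]⟩⟩
  rw [Finset.mem_filter, Finset.mem_powerset] at hJ
  refine ⟨J, hJ.1, hJ.2.1, hJ.2.2.1, hJ.2.2.2, ?_⟩
  intro T c s hne hT hi hs he hc
  obtain ⟨J', h1, h2, h3, h4⟩ := normalise hS ha hT hi hs he hc
  have hne' : J'.Nonempty := by
    rw [Finset.nonempty_iff_ne_empty]
    rintro rfl
    rw [Finset.sum_empty] at h3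
    obtain ⟨t, ht⟩ := hne
    rw [indep_iff] at hi
    exact hc t ht (hi c (by rw [← he, h3]) t ht)
  have := hmax J' (by
    rw [Finset.mem_filter, Finset.mem_powerset]
    exact ⟨h1, hne', h2, h3 ▸ hs⟩)
  rw [← h3, h4] at this
  exact this

end Pool.Agent.H281.Hel
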