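import Pool.Agent.H281.Hel.Lin

/-!
# The page inequality for the heaviest circuit
-/

set_option autoImplicit false

namespace Pool.Agent.H281.Hel

open Finset Classical

variable {V : Type*} [AddCommGroup V] [Module ℚ V]

lemma sum_chi {J A : Finset V} (hA : A ⊆ J) (g : V → ℚ) :
    ∑ j ∈ A, g j • j = ∑ j ∈ J, (if j ∈ A then g j else 0) • j := by
  rw [← Finset.sum_subset hA (f := fun j => (if j ∈ A then g j else 0) • j)]
  · refine Finset.sum_congr rfl fun j hj => ?_
    rw [if_pos hj]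
  · intro j _ hj
    rw [if_neg hj, zero_smul]

lemma sum_chi1 {J A : Finset V} (hA : A ⊆ J) :
    ∑ j ∈ A, j = ∑ j ∈ J, (if j ∈ A then (1 : ℚ) else 0) • j := by
  rw [← sum_chi hA (fun _ => 1)]
  exact Finset.sum_congr rfl fun j _ => (one_smul ℚ j).symm

lemma single_chi {J : Finset V} {x : V} (hx : x ∈ J) :
    x = ∑ j ∈ J, (if j = x then (1 : ℚ) else 0) • j := by
  have : ∀ j ∈ J, (if j = x then (1 : ℚ) else 0) • j = if j = x then j else 0 := by
    intro j _
    split_ifs <;> simp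
  rw [Finset.sum_congr rfl this, Finset.sum_ite_eq' J x, if_pos hx]

/-- `s` is a combination of the vectors of `T` -/
def Comb (T : Finset V) (s : V) : Prop := ∃ c : V → ℚ, s = ∑ t ∈ T, c t • t

lemma Comb.insert {T : Finset V} {s v : V} (h : Comb T s) (hv : v ∉ T) (γ : ℚ) :
    Comb (insert v T) (γ • v + s) := by
  obtain ⟨c, h1⟩ := h
  refine ⟨Function.update c v γ, ?_⟩
  rw [Finset.sum_insert hv, Function.update_self, h1]
  congr 1
  refine Finset.sum_congr rfl fun t ht => ?_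
  rw [Function.update_of_ne (by rintro rfl; exact hv ht)]

lemma Uni.coeff {S : Finset V} (hS : Uni S) {T : Finset V} {s s' v : V} {γ : ℚ}
    (hT : insert v T ⊆ S) (hi : LinearIndepOn ℚ id ((insert v T : Finset V) : Set V))
    (hs : s ∈ S) (hv : v ∉ T) (hc : Comb T s') (he : s = γ • v + s') :
    γ = 0 ∨ γ = 1 ∨ γ = -1 := by
  obtain ⟨c, h1⟩ := hc
  have h2 : s = ∑ t ∈ insert v T, (Function.update c v γ) t • t := by
    rw [Finset.sum_insert hv, Function.update_self, he, h1]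
    congr 1
    refine Finset.sum_congr rfl fun t ht => ?_
    rw [Function.update_of_ne (by rintro rfl; exact hv ht)]
  have := hS.uni _ _ s hT hi hs h2 v (Finset.mem_insert_self _ _)
  rwa [Function.update_self] at this

section

variable {S : Finset V} {a : V → ℚ} {J : Finset V}

/-- the family of pages -/
noncomputable def PP (S : Finset V) (a : V → ℚ) (J : Finset V) : Finset (Finset V) :=
  J.powerset.filter (fun A : Finset V => A.Nonempty ∧ A ≠ J ∧ (∑ j ∈ A, j) ∈ S ∧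
    (∑ j ∈ J \ A, j) ∈ S ∧ a (∑ j ∈ J, j) ≤ a (∑ j ∈ A, j) + a (∑ j ∈ J \ A, j))

lemma mem_PP {A : Finset V} : A ∈ PP S a J ↔ A ⊆ J ∧ A.Nonempty ∧ A ≠ J ∧ (∑ j ∈ A, j) ∈ S ∧
    (∑ j ∈ J \ A, j) ∈ S ∧ a (∑ j ∈ J, j) ≤ a (∑ j ∈ A, j) + a (∑ j ∈ J \ A, j) := by
  unfold PP
  rw [Finset.mem_filter, Finset.mem_powerset]

lemma PP_compl {A : Finset V} (h : A ∈ PP S a J) : J \ A ∈ PP S a J := by
  rw [mem_PP] at h ⊢
  obtain ⟨h1, h2, h3, h4, h5, h6⟩ := h
  rw [Finset.sdiff_sdiff_eq_self h1]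
  refine ⟨Finset.sdiff_subset, ?_, ?_, h5, h4, by linarith⟩
  · rw [Finset.sdiff_nonempty]
    intro h
    exact h3 (Finset.Subset.antisymm h1 h)
  · intro h
    obtain ⟨x, hx⟩ := h2
    have := h1 hx
    rw [← h, Finset.mem_sdiff] at this
    exact this.2 hx

lemma pages (hS : Uni S) (hJ : J ⊆ S) (hne : J.Nonempty)
    (hi : LinearIndepOn ℚ id (J : Set V)) (he : (∑ j ∈ J, j) ∈ S)
    (hH : Heavy S a (a (∑ j ∈ J, j) + ∑ j ∈ J, a j)) :
    Pages J (PP S a J) a (fun A => a (∑ j ∈ A, j)) (a (∑ j ∈ J, j)) := by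
  obtain ⟨φ, hφ⟩ := exists_dual hi
  have hds := fun {A : Finset V} (hA : A ⊆ J) {x : V} (hx : x ∈ J) => dual_sum hφ hA hx
  have hsd : ∀ A : Finset V, J \ A ⊆ J := fun A => Finset.sdiff_subset
  refine ⟨fun A hA => (mem_PP.1 hA).1, fun A hA => PP_compl hA, fun A hA => (mem_PP.1 hA).2.1,
    ?_, ?_, ?_, ?_, ?_, ?_⟩
  · intro A hA
    have := (mem_PP.1 hA).2.2.2.2.2
    show 0 ≤ a (∑ j ∈ A, j) + a (∑ j ∈ J \ A, j) - a (∑ j ∈ J, j)
    linarith
  · -- incl
    intro A hA B hB hAB hABne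
    obtain ⟨A1, A2, A3, A4, A5, A6⟩ := mem_PP.1 hA
    obtain ⟨B1, B2, B3, B4, B5, B6⟩ := mem_PP.1 hB
    obtain ⟨x, xB, xA⟩ := Finset.exists_of_ssubset (Finset.ssubset_iff_subset_ne.2 ⟨hAB, hABne⟩)
    have xJ := B1 xB
    have hins := indep_insert (v := ∑ j ∈ J \ A, j) (indep_mono hi (hsd (B \ A))) (φ x) (by
      intro t ht
      rw [Finset.mem_sdiff, Finset.mem_sdiff] at ht
      rw [hφ x xJ t ht.1, if_neg]
      rintro rfl
      exact ht.2 ⟨xB, xA⟩) (by
      rw [hds (hsd A) xJ, if_pos (Finset.mem_sdiff.2 ⟨xJ, xA⟩)]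
      exact one_ne_zero)
    have hrel : Rel (J \ (B \ A)) (∑ j ∈ J \ (B \ A), (if j ∈ A then (1 : ℚ) else -1) • j) :=
      ⟨fun j => if j ∈ A then (1 : ℚ) else -1, rfl, fun t _ => by
        show (if t ∈ A then (1 : ℚ) else -1) ≠ 0
        split_ifs <;> norm_num⟩
    have h1 := hH.rel (s := ∑ j ∈ B, j) (Finset.insert_nonempty _ _) (by
      intro t ht
      rcases Finset.mem_insert.1 ht with rfl | ht
      · exact A5
      · exact hJ (hsd _ ht)) hins.2 B4 (by
      have h2 := hrel.insert hins.1 1 one_ne_zero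
      have h3 : ∑ j ∈ B, j = (1 : ℚ) • ∑ j ∈ J \ A, j +
          ∑ j ∈ J \ (B \ A), (if j ∈ A then (1 : ℚ) else -1) • j := by
        rw [one_smul, sum_chi1 B1, sum_chi1 (hsd A), sum_chi (hsd (B \ A)),
          ← Finset.sum_add_distrib]
        refine Finset.sum_congr rfl fun j hj => ?_
        rw [← add_smul]
        congr 1
        by_cases jA : j ∈ A
        · simp [hj, jA, hAB jA]
        · by_cases jB : j ∈ B
          · simp [hj, jA, jB]
          · simp [hj, jA, jB]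
      rw [h3]
      exact h2)
    rw [Finset.sum_insert hins.1] at h1
    have h4 : ∑ j ∈ J, a j = ∑ j ∈ J \ (B \ A), a j + ∑ j ∈ B \ A, a j :=
      (Finset.sum_sdiff (Finset.sdiff_subset.trans B1)).symm
    show a (∑ j ∈ B, j) + a (∑ j ∈ J \ A, j) ≤ a (∑ j ∈ J, j) + ∑ j ∈ B \ A, a j
    linarith
  · -- le
    intro A hA
    obtain ⟨A1, A2, A3, A4, A5, A6⟩ := mem_PP.1 hA
    obtain ⟨x, xA⟩ := A2
    have xJ := A1 xA
    have hins := indep_insert (v := ∑ j ∈ A, j) (indep_mono hi (hsd A)) (φ x) (by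
      intro t ht
      rw [Finset.mem_sdiff] at ht
      rw [hφ x xJ t ht.1, if_neg]
      rintro rfl
      exact ht.2 xA) (by
      rw [hds A1 xJ, if_pos xA]
      exact one_ne_zero)
    have hrel : Rel (J \ A) (∑ j ∈ J \ A, (1 : ℚ) • j) :=
      ⟨fun _ => 1, rfl, fun t _ => one_ne_zero⟩
    have h1 := hH.rel (s := ∑ j ∈ J, j) (Finset.insert_nonempty _ _) (by
      intro t ht
      rcases Finset.mem_insert.1 ht with rfl | ht
      · exact A4
      · exact hJ (hsd _ ht)) hins.2 he (by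
      have h2 := hrel.insert hins.1 1 one_ne_zero
      have h3 : ∑ j ∈ J, j = (1 : ℚ) • ∑ j ∈ A, j + ∑ j ∈ J \ A, (1 : ℚ) • j := by
        simp only [one_smul]
        rw [add_comm]
        exact (Finset.sum_sdiff A1).symm
      rw [h3]
      exact h2)
    rw [Finset.sum_insert hins.1] at h1
    have h4 : ∑ j ∈ J, a j = ∑ j ∈ J \ A, a j + ∑ j ∈ A, a j :=
      (Finset.sum_sdiff A1).symm
    show a (∑ j ∈ A, j) ≤ ∑ j ∈ A, a j
    linarith
  · -- cross
    rintro A hA B hB ⟨x, xJ, xA, xB⟩ ⟨y, yJ, yA, yB⟩ - ⟨z, zJ, zA, zB⟩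
    obtain ⟨A1, A2, A3, A4, A5, A6⟩ := mem_PP.1 hA
    obtain ⟨B1, B2, B3, B4, B5, B6⟩ := mem_PP.1 hB
    have i0 : LinearIndepOn ℚ id ((∅ : Finset V) : Set V) := indep_mono hi (Finset.empty_subset _)
    have i1 := indep_insert (v := ∑ j ∈ J \ A, j) i0 (φ z) (by simp) (by
      rw [hds (hsd A) zJ, if_pos (Finset.mem_sdiff.2 ⟨zJ, zA⟩)]
      exact one_ne_zero)
    have i2 := indep_insert (v := ∑ j ∈ B, j) i1.2 (φ x) (by
      intro t ht
      rw [Finset.mem_insert] at ht
      rcases ht with rfl | ht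
      · rw [hds (hsd A) xJ, if_neg]
        exact fun h => (Finset.mem_sdiff.1 h).2 xA
      · exact absurd ht (Finset.notMem_empty _)) (by
      rw [hds B1 xJ, if_pos xB]
      exact one_ne_zero)
    have i3 := indep_insert (v := ∑ j ∈ J \ B, j) i2.2 (φ y) (by
      intro t ht
      rw [Finset.mem_insert, Finset.mem_insert] at ht
      rcases ht with rfl | rfl | ht
      · rw [hds B1 yJ, if_neg yB]
      · rw [hds (hsd A) yJ, if_neg]
        exact fun h => (Finset.mem_sdiff.1 h).2 yA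
      · exact absurd ht (Finset.notMem_empty _)) (by
      rw [hds (hsd B) yJ, if_pos (Finset.mem_sdiff.2 ⟨yJ, yB⟩)]
      exact one_ne_zero)
    have hrel := ((Rel.empty.insert i1.1 (-1 : ℚ) (by norm_num)).insert i2.1 1 one_ne_zero).insert
      i3.1 1 one_ne_zero
    have h1 := hH.rel (s := ∑ j ∈ A, j) (Finset.insert_nonempty _ _) (by
      intro t ht
      rw [Finset.mem_insert, Finset.mem_insert, Finset.mem_insert] at ht
      rcases ht with rfl | rfl | rfl | ht
      · exact B5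
      · exact B4
      · exact A5
      · exact absurd ht (Finset.notMem_empty _)) i3.2 A4 (by
      have h3 : ∑ j ∈ A, j = (1 : ℚ) • ∑ j ∈ J \ B, j + ((1 : ℚ) • ∑ j ∈ B, j +
          ((-1 : ℚ) • ∑ j ∈ J \ A, j + 0)) := by
        have e1 : ∑ j ∈ J \ B, j + ∑ j ∈ B, j = ∑ j ∈ J, j := Finset.sum_sdiff B1
        have e2 : ∑ j ∈ J \ A, j + ∑ j ∈ A, j = ∑ j ∈ J, j := Finset.sum_sdiff A1
        rw [one_smul, one_smul, neg_smul, one_smul, add_zero, ← add_assoc, e1, ← e2]
        abel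
      rw [h3]
      exact hrel)
    rw [Finset.sum_insert i3.1, Finset.sum_insert i2.1, Finset.sum_insert i1.1,
      Finset.sum_empty] at h1
    show a (∑ j ∈ A, j) + a (∑ j ∈ J \ A, j) + a (∑ j ∈ B, j) + a (∑ j ∈ J \ B, j) ≤
      a (∑ j ∈ J, j) + ∑ j ∈ J, a j
    linarith
  · -- bad
    rintro A hA B hB C hC x xJ y yJ z zJ ⟨xA, xB, xC, yA, yB, yC, zA, zB, zC⟩
    obtain ⟨A1, A2, A3, A4, A5, A6⟩ := mem_PP.1 hA
    obtain ⟨B1, B2, B3, B4, B5, B6⟩ := mem_PP.1 hB
    obtain ⟨C1, C2, C3, C4, C5, C6⟩ := mem_PP.1 hC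
    set T := J \ {x, y, z} with hT
    have hTm : ∀ t ∈ T, t ∈ J ∧ t ≠ x ∧ t ≠ y ∧ t ≠ z := by
      intro t ht
      rw [hT, Finset.mem_sdiff] at ht
      simpa using ht
    have φ0 : ∀ u ∈ J, ∀ t ∈ T, u ≠ t → φ u t = 0 := by
      intro u hu t ht h
      rw [hφ u hu t (hTm t ht).1, if_neg h]
    have i1 := indep_insert (v := ∑ j ∈ A, j) (indep_mono hi (hsd {x, y, z})) (φ x)
      (fun t ht => φ0 x xJ t ht (hTm t ht).2.1.symm) (by
      rw [hds A1 xJ, if_pos xA]
      exact one_ne_zero)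
    have i2 := indep_insert (v := ∑ j ∈ B, j) i1.2 (φ z) (by
      intro t ht
      rw [Finset.mem_insert] at ht
      rcases ht with rfl | ht
      · rw [hds A1 zJ, if_neg zA]
      · exact φ0 z zJ t ht (hTm t ht).2.2.2.symm) (by
      rw [hds B1 zJ, if_pos zB]
      exact one_ne_zero)
    have i3 := indep_insert (v := ∑ j ∈ C, j) i2.2 (φ x - φ y - φ z) (by
      intro t ht
      rw [Finset.mem_insert, Finset.mem_insert] at ht
      rw [LinearMap.sub_apply, LinearMap.sub_apply]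
      rcases ht with rfl | rfl | ht
      · rw [hds B1 xJ, hds B1 yJ, hds B1 zJ, if_pos xB, if_neg yB, if_pos zB]
        norm_num
      · rw [hds A1 xJ, hds A1 yJ, hds A1 zJ, if_pos xA, if_pos yA, if_neg zA]
        norm_num
      · rw [φ0 x xJ t ht (hTm t ht).2.1.symm, φ0 y yJ t ht (hTm t ht).2.2.1.symm,
          φ0 z zJ t ht (hTm t ht).2.2.2.symm]
        norm_num) (by
      rw [LinearMap.sub_apply, LinearMap.sub_apply, hds C1 xJ, hds C1 yJ, hds C1 zJ, if_neg xC,
        if_pos yC, if_pos zC]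
      norm_num)
    have hcomb : Comb T (∑ j ∈ T, (-(1 / 2 : ℚ) * ((if j ∈ A then 1 else 0) +
        (if j ∈ B then 1 else 0) - (if j ∈ C then 1 else 0))) • j) := ⟨_, rfl⟩
    have hc2 := (hcomb.insert i1.1 (1 / 2 : ℚ)).insert i2.1 (1 / 2 : ℚ)
    have := hS.coeff (s := x) (γ := -(1 / 2 : ℚ)) (by
      intro t ht
      rw [Finset.mem_insert, Finset.mem_insert, Finset.mem_insert] at ht
      rcases ht with rfl | rfl | rfl | ht
      · exact C4
      · exact B4
      · exact A4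
      · exact hJ (hTm t ht).1) i3.2 (hJ xJ) i3.1 hc2 (by
      conv_lhs => rw [single_chi xJ]
      rw [sum_chi1 A1, sum_chi1 B1, sum_chi1 C1, sum_chi (J := J) (hsd {x, y, z}),
        Finset.smul_sum, Finset.smul_sum, Finset.smul_sum, ← Finset.sum_add_distrib,
        ← Finset.sum_add_distrib, ← Finset.sum_add_distrib]
      refine Finset.sum_congr rfl fun j hj => ?_
      rw [smul_smul, smul_smul, smul_smul, ← add_smul, ← add_smul, ← add_smul]
      congr 1
      have hxy : x ≠ y := by rintro rfl; exact yB xB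
      have hxz : x ≠ z := by rintro rfl; exact zA xA
      have hyz : y ≠ z := by rintro rfl; exact zA yA
      by_cases jx : j = x
      · subst jx
        rw [if_pos rfl, if_pos xA, if_pos xB, if_neg xC, if_neg (by simp)]
        norm_num
      by_cases jy : j = y
      · subst jy
        rw [if_neg (Ne.symm hxy), if_pos yA, if_neg yB, if_pos yC, if_neg (by simp)]
        norm_num
      by_cases jz : j = z
      · subst jz
        rw [if_neg (Ne.symm hxz), if_neg zA, if_pos zB, if_pos zC, if_neg (by simp)]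
        norm_num
      rw [if_neg jx, if_pos (Finset.mem_sdiff.2 ⟨hj, by simp [jx, jy, jz]⟩)]
      ring)
    rcases this with h | h | h <;> norm_num at h
  · -- two
    obtain ⟨x, xJ⟩ := hne
    have i0 : LinearIndepOn ℚ id ((∅ : Finset V) : Set V) := indep_mono hi (Finset.empty_subset _)
    have i1 := indep_insert (v := ∑ j ∈ J, j) i0 (φ x) (by simp) (by
      rw [hds (Finset.Subset.refl J) xJ, if_pos xJ]
      exact one_ne_zero)
    have h1 := hH.rel (s := ∑ j ∈ J, j) (Finset.insert_nonempty _ _) (by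
      intro t ht
      rw [Finset.mem_insert] at ht
      rcases ht with rfl | ht
      · exact he
      · exact absurd ht (Finset.notMem_empty _)) i1.2 he (by
      have h2 := Rel.empty.insert i1.1 (1 : ℚ) one_ne_zero
      have h3 : ∑ j ∈ J, j = (1 : ℚ) • ∑ j ∈ J, j + 0 := by rw [one_smul, add_zero]
      rw [← h3] at h2
      exact h2)
    rw [Finset.sum_insert i1.1, Finset.sum_empty] at h1
    linarith

end

end Pool.Agent.H281.Hel
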