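import Pool.Agent.H281.Hel.LinB

/-!
# Contraction and the weighted Erdős–Gallai inequality
-/

set_option autoImplicit false

namespace Pool.Agent.H281.Hel

open Finset Classical

section

variable {V : Type*} [AddCommGroup V] [Module ℚ V]
variable {S : Finset V} {a : V → ℚ} {J : Finset V}

/-- the page inequality for vectors -/
lemma pageSum (hS : Uni S) (ha : ∀ s, a (-s) = a s) (hJ : J ⊆ S) (hne : J.Nonempty)
    (hi : LinearIndepOn ℚ id (J : Set V)) (he : (∑ j ∈ J, j) ∈ S)
    (hH : Heavy S a (a (∑ j ∈ J, j) + ∑ j ∈ J, a j)) (D : Finset V)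
    (hD : ∀ f ∈ D, f ∈ S ∧ f - (∑ j ∈ J, j) ∈ S ∧ f ≠ 0 ∧ f ≠ ∑ j ∈ J, j) :
    ∑ f ∈ D, (a f + a (f - ∑ j ∈ J, j) - a (∑ j ∈ J, j)) ≤
      2 * (a (∑ j ∈ J, j) + ∑ j ∈ J, a j - 2 * a (∑ j ∈ J, j)) := by
  have hmain := (pages hS hJ hne hi he hH).main
  obtain ⟨φ, hφ⟩ := exists_dual hi
  set e := ∑ j ∈ J, j with hedef
  set g : V → ℚ := fun f => a f + a (f - e) - a e with hg
  have hcompl : ∀ A : Finset V, A ⊆ J → (∑ j ∈ A, j) - e = - ∑ j ∈ J \ A, j := by
    intro A hA
    rw [hedef, ← Finset.sum_sdiff hA]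
    abel
  have hgA : ∀ A ∈ PP S a J, g (∑ j ∈ A, j) = a (∑ j ∈ A, j) + a (∑ j ∈ J \ A, j) - a e := by
    intro A hA
    show a (∑ j ∈ A, j) + a ((∑ j ∈ A, j) - e) - a e = _
    rw [hcompl A (mem_PP.1 hA).1, ha]
  have hinj : Set.InjOn (fun A : Finset V => ∑ j ∈ A, j) (PP S a J : Set (Finset V)) := by
    intro A hA B hB hAB
    have hA' := (mem_PP.1 (by exact_mod_cast hA : A ∈ PP S a J)).1
    have hB' := (mem_PP.1 (by exact_mod_cast hB : B ∈ PP S a J)).1
    have hAB' : ∑ j ∈ A, j = ∑ j ∈ B, j := hAB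
    ext x
    by_cases hx : x ∈ J
    · have h1 := dual_sum hφ hA' hx
      have h2 := dual_sum hφ hB' hx
      rw [hAB', h2] at h1
      by_cases h3 : x ∈ A <;> by_cases h4 : x ∈ B <;> simp [h3, h4] at h1 ⊢
    · exact ⟨fun h => absurd (hA' h) hx, fun h => absurd (hB' h) hx⟩
  have hkey : ∀ f ∈ D, 0 < g f → f ∈ (PP S a J).image (fun A : Finset V => ∑ j ∈ A, j) := by
    intro f hf hpos
    obtain ⟨f1, f2, f3, f4⟩ := hD f hf
    have f2' : e - f ∈ S := by
      have := hS.neg _ f2
      rwa [neg_sub] at this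
    have hspan : f ∈ Submodule.span ℚ (J : Set V) := by
      by_contra hns
      have hfJ : f ∉ J := fun h => hns (Submodule.subset_span (by exact_mod_cast h))
      have hins : LinearIndepOn ℚ id ((insert f J : Finset V) : Set V) := by
        have hi2 := hi
        rw [indep_iff] at hi2 ⊢
        intro c hc
        rw [Finset.sum_insert hfJ] at hc
        have h1 : c f = 0 := by
          by_contra hcf
          apply hns
          have h2 : f = -(c f)⁻¹ • ∑ t ∈ J, c t • t := by
            have h3 : c f • f = - ∑ t ∈ J, c t • t := eq_neg_of_add_eq_zero_left hc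
            have h4 : f = (c f)⁻¹ • (c f • f) := by
              rw [smul_smul, inv_mul_cancel₀ hcf, one_smul]
            rw [h3, smul_neg, ← neg_smul] at h4
            exact h4
          rw [h2]
          refine Submodule.smul_mem _ _ (Submodule.sum_mem _ fun t ht => ?_)
          exact Submodule.smul_mem _ _ (Submodule.subset_span (by exact_mod_cast ht))
        rw [h1, zero_smul, zero_add] at hc
        intro t ht
        rcases Finset.mem_insert.1 ht with rfl | ht
        · exact h1
        · exact hi2 c hc t ht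
      have hrel : Rel J (∑ j ∈ J, (1 : ℚ) • j) := ⟨fun _ => 1, rfl, fun t _ => one_ne_zero⟩
      have h1 := hH.rel (s := e - f) (Finset.insert_nonempty _ _) (by
        intro t ht
        rcases Finset.mem_insert.1 ht with rfl | ht
        · exact f1
        · exact hJ ht) hins f2' (by
        have h2 := hrel.insert hfJ (-1) (by norm_num)
        have h3 : e - f = (-1 : ℚ) • f + ∑ j ∈ J, (1 : ℚ) • j := by
          simp only [one_smul, neg_smul]
          rw [← hedef]
          abel
        rw [h3]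
        exact h2)
      rw [Finset.sum_insert hfJ] at h1
      have h4 : a (e - f) = a (f - e) := by rw [← ha, neg_sub]
      have : g f = a f + a (f - e) - a e := rfl
      linarith
    obtain ⟨c, hc⟩ := Submodule.mem_span_finset'.1 hspan
    set c' : V → ℚ := fun v => if hv : v ∈ J then c ⟨v, hv⟩ else 0 with hc'
    have hfc : f = ∑ j ∈ J, c' j • j := by
      rw [← hc, ← Finset.sum_coe_sort J]
      refine Finset.sum_congr rfl fun j _ => ?_
      rw [hc']
      simp
    have hefc : e - f = ∑ j ∈ J, (1 - c' j) • j := by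
      rw [hfc, hedef, ← Finset.sum_sub_distrib]
      refine Finset.sum_congr rfl fun j _ => ?_
      rw [sub_smul, one_smul]
    have h1 := hS.uni J c' f hJ hi f1 hfc
    have h2 := hS.uni J (fun j => 1 - c' j) (e - f) hJ hi f2' hefc
    have h3 : ∀ j ∈ J, c' j = 0 ∨ c' j = 1 := by
      intro j hj
      rcases h1 j hj with h | h | h
      · exact Or.inl h
      · exact Or.inr h
      · have h4 : 1 - c' j = 0 ∨ 1 - c' j = 1 ∨ 1 - c' j = -1 := h2 j hj
        rw [h] at h4
        rcases h4 with h4 | h4 | h4 <;> norm_num at h4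
    have hfA : f = ∑ j ∈ J.filter (fun j => c' j = 1), j := by
      rw [hfc, sum_chi1 (Finset.filter_subset (fun j => c' j = 1) J)]
      refine Finset.sum_congr rfl fun j hj => ?_
      congr 1
      rcases h3 j hj with h | h
      · rw [h, if_neg]
        intro h5
        rw [Finset.mem_filter, h] at h5
        exact absurd h5.2 (by norm_num)
      · rw [h, if_pos (Finset.mem_filter.2 ⟨hj, h⟩)]
    rw [Finset.mem_image]
    refine ⟨J.filter (fun j => c' j = 1), ?_, hfA.symm⟩
    set A := J.filter (fun j => c' j = 1) with hA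
    have hAJ : A ⊆ J := Finset.filter_subset _ _
    have h5 : f - e = - ∑ j ∈ J \ A, j := by
      have := hcompl A hAJ
      rw [← hfA] at this
      exact this
    have h6 : ∑ j ∈ J \ A, j = e - f := by
      rw [← neg_sub, h5, neg_neg]
    rw [mem_PP, ← hfA, h6]
    refine ⟨hAJ, ?_, ?_, f1, f2', ?_⟩
    · rw [Finset.nonempty_iff_ne_empty]
      intro h
      rw [h, Finset.sum_empty] at hfA
      exact f3 hfA
    · intro h
      rw [h] at hfA
      exact f4 hfA
    · have : g f = a f + a (f - e) - a e := rfl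
      rw [this] at hpos
      have h7 : a (e - f) = a (f - e) := by rw [← ha, neg_sub]
      rw [h7]
      linarith
  have s1 : ∑ f ∈ D, g f ≤ ∑ f ∈ D.filter (fun f => 0 < g f), g f := by
    rw [← Finset.sum_filter_add_sum_filter_not D (fun f => 0 < g f)]
    have : ∑ f ∈ D.filter (fun f => ¬ 0 < g f), g f ≤ 0 := by
      refine Finset.sum_nonpos fun f hf => ?_
      exact not_lt.1 (Finset.mem_filter.1 hf).2
    linarith
  have s2 : ∑ f ∈ D.filter (fun f => 0 < g f), g f ≤
      ∑ f ∈ (PP S a J).image (fun A : Finset V => ∑ j ∈ A, j), g f := by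
    refine Finset.sum_le_sum_of_subset_of_nonneg ?_ ?_
    · intro f hf
      rw [Finset.mem_filter] at hf
      exact hkey f hf.1 hf.2
    · intro f hf _
      obtain ⟨A, hA, rfl⟩ := Finset.mem_image.1 hf
      show 0 ≤ g (∑ j ∈ A, j)
      rw [hgA A hA]
      have := (mem_PP.1 hA).2.2.2.2.2
      linarith
  rw [Finset.sum_image hinj] at s2
  have s3 : ∑ A ∈ PP S a J, g (∑ j ∈ A, j) =
      ∑ A ∈ PP S a J, (a (∑ j ∈ A, j) + a (∑ j ∈ J \ A, j) - a e) :=
    Finset.sum_congr rfl hgA
  rw [s3] at s2
  exact (s1.trans s2).trans hmain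

end

end Pool.Agent.H281.Hel
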