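import Pool.Agent.H281.Hel.LinC

/-!
# Contraction and the weighted Erdős–Gallai inequality
-/

set_option autoImplicit false

namespace Pool.Agent.H281.Hel

open Finset Classical

section

variable {V V' : Type*} [AddCommGroup V] [Module ℚ V] [AddCommGroup V'] [Module ℚ V']
variable {S : Finset V} {a : V → ℚ} {π : V →ₗ[ℚ] V'} {e : V}

/-- lifting of independent sets -/
lemma lift_indep (hπe : π e = 0) (he0 : e ≠ 0) {T' : Finset V'} {x : V' → V}
    (hx : ∀ u ∈ T', π (x u) = u) (hT' : LinearIndepOn ℚ id (T' : Set V')) :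
    Set.InjOn x (T' : Set V') ∧ e ∉ T'.image x ∧
      LinearIndepOn ℚ id ((insert e (T'.image x) : Finset V) : Set V) := by
  have hinj : Set.InjOn x (T' : Set V') := by
    intro u hu v hv h
    rw [← hx u (by exact_mod_cast hu), ← hx v (by exact_mod_cast hv), h]
  rw [indep_iff] at hT'
  have hne0 : ∀ u ∈ T', u ≠ 0 := by
    rintro u hu rfl
    have := hT' (fun w => if w = 0 then 1 else 0) (by
      refine Finset.sum_eq_zero fun w _ => ?_
      by_cases h : w = 0
      · rw [h, smul_zero]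
      · simp [h]) 0 hu
    simp at this
  have heT : e ∉ T'.image x := by
    intro h
    obtain ⟨u, hu, hue⟩ := Finset.mem_image.1 h
    apply hne0 u hu
    rw [← hx u hu, hue, hπe]
  refine ⟨hinj, heT, ?_⟩
  rw [indep_iff]
  intro g hg
  rw [Finset.sum_insert heT, Finset.sum_image hinj] at hg
  have h1 : ∑ u ∈ T', g (x u) • u = 0 := by
    have h2 := congrArg π hg
    rw [map_add, map_smul, hπe, smul_zero, zero_add, map_sum, map_zero] at h2
    rw [← h2]
    refine Finset.sum_congr rfl fun u hu => ?_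
    rw [map_smul, hx u hu]
  have h3 := hT' (fun u => g (x u)) h1
  have h4 : g e = 0 := by
    rw [Finset.sum_eq_zero (fun u hu => by
      have h5 : g (x u) = 0 := h3 u hu
      rw [h5, zero_smul]), add_zero] at hg
    exact (smul_eq_zero.1 hg).resolve_right he0
  intro t ht
  rcases Finset.mem_insert.1 ht with rfl | ht
  · exact h4
  · obtain ⟨u, hu, rfl⟩ := Finset.mem_image.1 ht
    exact h3 u hu

/-- lifting of relations -/
lemma lift_rel (hS : Uni S) (heS : e ∈ S) (he0 : e ≠ 0)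
    (hker : ∀ v, π v = 0 ↔ ∃ κ : ℚ, v = κ • e) {T' : Finset V'} {x : V' → V} {c : V' → ℚ}
    (hx : ∀ u ∈ T', π (x u) = u) (hxS : ∀ u ∈ T', x u ∈ S)
    (hT' : LinearIndepOn ℚ id (T' : Set V')) {x₀ : V} (hx₀ : x₀ ∈ S)
    (h0 : π x₀ = ∑ u ∈ T', c u • u) :
    ∃ κ : ℚ, (κ = 0 ∨ κ = 1 ∨ κ = -1) ∧ x₀ = κ • e + ∑ u ∈ T', c u • x u := by
  have hπe : π e = 0 := (hker e).2 ⟨1, (one_smul ℚ e).symm⟩
  obtain ⟨hinj, heT, hind⟩ := lift_indep hπe he0 hx hT'
  obtain ⟨κ, hκ⟩ := (hker (x₀ - ∑ u ∈ T', c u • x u)).1 (by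
    rw [map_sub, h0, map_sum, sub_eq_zero]
    refine Finset.sum_congr rfl fun u hu => ?_
    rw [map_smul, hx u hu])
  have h1 : x₀ = κ • e + ∑ u ∈ T', c u • x u := by
    rw [← hκ]
    abel
  refine ⟨κ, ?_, h1⟩
  refine hS.coeff (s' := ∑ u ∈ T', c u • x u) ?_ hind hx₀ heT ⟨fun v => c (π v), ?_⟩ h1
  · intro t ht
    rcases Finset.mem_insert.1 ht with rfl | ht
    · exact heS
    · obtain ⟨u, hu, rfl⟩ := Finset.mem_image.1 ht
      exact hxS u hu
  · rw [Finset.sum_image hinj]
    refine Finset.sum_congr rfl fun u hu => ?_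
    show c u • x u = c (π (x u)) • x u
    rw [hx u hu]

lemma Uni.contract (hS : Uni S) (heS : e ∈ S) (he0 : e ≠ 0)
    (hker : ∀ v, π v = 0 ↔ ∃ κ : ℚ, v = κ • e) : Uni (S.image π) := by
  have hπe : π e = 0 := (hker e).2 ⟨1, (one_smul ℚ e).symm⟩
  refine ⟨?_, ?_⟩
  · intro s hs
    obtain ⟨t, ht, rfl⟩ := Finset.mem_image.1 hs
    exact Finset.mem_image.2 ⟨-t, hS.neg t ht, map_neg π t⟩
  · intro T' c u₀ hT' hi hu₀ hc
    have hlift : ∀ u ∈ S.image π, ∃ t ∈ S, π t = u := fun u hu => Finset.mem_image.1 hu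
    choose! x hxS hx using hlift
    obtain ⟨κ, -, h1⟩ := lift_rel hS heS he0 hker (fun u hu => hx u (hT' hu))
      (fun u hu => hxS u (hT' hu)) hi (hxS u₀ hu₀) (by rw [hx u₀ hu₀, hc])
    obtain ⟨hinj, heT, hind⟩ := lift_indep hπe he0 (fun u hu => hx u (hT' hu)) hi
    have h2 : x u₀ = ∑ t ∈ insert e (T'.image x), (Function.update (fun v => c (π v)) e κ) t • t := by
      rw [Finset.sum_insert heT, Function.update_self, Finset.sum_image hinj, h1]
      congr 1
      refine Finset.sum_congr rfl fun u hu => ?_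
      rw [Function.update_of_ne (by
        intro h
        exact heT (h ▸ Finset.mem_image_of_mem x hu)), hx u (hT' hu)]
    have h3 := hS.uni _ _ _ (by
      intro t ht
      rcases Finset.mem_insert.1 ht with rfl | ht
      · exact heS
      · obtain ⟨u, hu, rfl⟩ := Finset.mem_image.1 ht
        exact hxS u (hT' hu)) hind (hxS u₀ hu₀) h2
    intro u hu
    have h4 := h3 (x u) (Finset.mem_insert_of_mem (Finset.mem_image_of_mem x hu))
    rw [Function.update_of_ne (by
        intro h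
        exact heT (h ▸ Finset.mem_image_of_mem x hu)), hx u (hT' hu)] at h4
    exact h4

/-- the weight of a lift -/
noncomputable def kk (S : Finset V) (a : V → ℚ) (e : V) (s : V) : ℚ :=
  a s - (if s - e ∈ S then (a s + a (s - e) - a e) / 2 else 0)

/-- the contracted weight -/
noncomputable def aa (S : Finset V) (a : V → ℚ) (π : V →ₗ[ℚ] V') (e : V) (u : V') : ℚ :=
  ∑ s ∈ S.filter (fun s => π s = u), kk S a e s

lemma fib (hS : Uni S) (heS : e ∈ S) (he0 : e ≠ 0)
    (hker : ∀ v, π v = 0 ↔ ∃ κ : ℚ, v = κ • e) {s t : V} (hs : s ∈ S) (ht : t ∈ S)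
    (h : π s = π t) (h0 : π t ≠ 0) : s = t ∨ s = t + e ∨ s = t - e := by
  have hi : LinearIndepOn ℚ id (({π t} : Finset V') : Set V') := by
    rw [indep_iff]
    intro g hg u hu
    rw [Finset.sum_singleton] at hg
    rw [Finset.mem_singleton.1 hu]
    exact (smul_eq_zero.1 hg).resolve_right h0
  obtain ⟨κ, hκ, h1⟩ := lift_rel (T' := {π t}) (x := fun _ => t) (c := fun _ => 1) hS heS he0 hker
    (by intro u hu; rw [Finset.mem_singleton.1 hu]) (fun _ _ => ht) hi hs
    (by rw [Finset.sum_singleton, one_smul, h])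
  rw [Finset.sum_singleton, one_smul] at h1
  rcases hκ with rfl | rfl | rfl
  · left; rw [h1, zero_smul, zero_add]
  · right; left; rw [h1, one_smul, add_comm]
  · right; right; rw [h1, neg_smul, one_smul]; abel

lemma lohi (hS : Uni S) (heS : e ∈ S) (he0 : e ≠ 0)
    (hker : ∀ v, π v = 0 ↔ ∃ κ : ℚ, v = κ • e) {u : V'} (hu : u ∈ S.image π) (hu0 : u ≠ 0) :
    ∃ p : V × ℚ, (p.2 = 0 ∨ p.2 = 1) ∧ p.1 ∈ S ∧ p.1 + p.2 • e ∈ S ∧ π p.1 = u ∧
      aa S a π e u = (a p.1 + a (p.1 + p.2 • e) + p.2 * a e) / 2 := by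
  by_cases hc : ∃ s ∈ S, π s = u ∧ s - e ∈ S
  · obtain ⟨s, hs, hsu, hse⟩ := hc
    have hπe : π e = 0 := (hker e).2 ⟨1, (one_smul ℚ e).symm⟩
    have hne : s ≠ s - e := by
      intro h
      apply he0
      have : s - (s - e) = 0 := by rw [← h, sub_self]
      rwa [sub_sub_cancel] at this
    have h2 : s - e - e ∉ S := by
      intro h
      rcases fib hS heS he0 hker hs h (by rw [map_sub, map_sub, hπe, sub_zero, sub_zero])
        (by rw [map_sub, map_sub, hπe, sub_zero, sub_zero, hsu]; exact hu0) with h3 | h3 | h3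
      · have h4 : e + e = 0 := by
          have : s - (s - e - e) = 0 := sub_eq_zero.2 h3
          rw [← this]; abel
        rw [← two_smul ℚ e] at h4
        exact he0 ((smul_eq_zero.1 h4).resolve_left (by norm_num))
      · apply hne
        rwa [sub_add_cancel] at h3
      · have h4 : (3 : ℚ) • e = 0 := by
          have : s - (s - e - e - e) = 0 := sub_eq_zero.2 h3
          rw [← this]
          have : (3 : ℚ) • e = e + e + e := by
            rw [show (3 : ℚ) = 1 + 1 + 1 by norm_num, add_smul, add_smul, one_smul]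
          rw [this]
          abel
        exact he0 ((smul_eq_zero.1 h4).resolve_left (by norm_num))
    have hfil : S.filter (fun t => π t = u) = {s - e, s} := by
      ext t
      rw [Finset.mem_filter, Finset.mem_insert, Finset.mem_singleton]
      constructor
      · rintro ⟨ht, htu⟩
        rcases fib hS heS he0 hker ht hs (htu.trans hsu.symm) (hsu ▸ hu0) with h3 | h3 | h3
        · exact Or.inr h3
        · exfalso
          rcases fib hS heS he0 hker ht hse (by rw [map_sub, hπe, sub_zero, htu, hsu])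
            (by rw [map_sub, hπe, sub_zero, hsu]; exact hu0) with h5 | h5 | h5
          · have h4 : (2 : ℚ) • e = 0 := by
              have : (s + e) - (s - e) = 0 := sub_eq_zero.2 (h3 ▸ h5)
              rw [← this, two_smul]
              abel
            exact he0 ((smul_eq_zero.1 h4).resolve_left (by norm_num))
          · apply he0
            have : (s + e) - (s - e + e) = 0 := sub_eq_zero.2 (h3 ▸ h5)
            rw [← this]
            abel
          · have h4 : (3 : ℚ) • e = 0 := by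
              have : (s + e) - (s - e - e) = 0 := sub_eq_zero.2 (h3 ▸ h5)
              rw [← this]
              have : (3 : ℚ) • e = e + e + e := by
                rw [show (3 : ℚ) = 1 + 1 + 1 by norm_num, add_smul, add_smul, one_smul]
              rw [this]
              abel
            exact he0 ((smul_eq_zero.1 h4).resolve_left (by norm_num))
        · exact Or.inl h3
      · rintro (rfl | rfl)
        · exact ⟨hse, by rw [map_sub, hπe, sub_zero, hsu]⟩
        · exact ⟨hs, hsu⟩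
    refine ⟨(s - e, 1), Or.inr rfl, hse, ?_, ?_, ?_⟩
    · show s - e + (1 : ℚ) • e ∈ S
      rw [one_smul, sub_add_cancel]
      exact hs
    · show π (s - e) = u
      rw [map_sub, hπe, sub_zero, hsu]
    · show aa S a π e u = (a (s - e) + a (s - e + (1 : ℚ) • e) + 1 * a e) / 2
      rw [one_smul, sub_add_cancel, aa, hfil, Finset.sum_pair hne.symm, kk, kk, if_neg h2,
        if_pos hse]
      ring
  · push Not at hc
    obtain ⟨s, hs, hsu⟩ := Finset.mem_image.1 hu
    have hfil : S.filter (fun t => π t = u) = {s} := by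
      ext t
      rw [Finset.mem_filter, Finset.mem_singleton]
      constructor
      · rintro ⟨ht, htu⟩
        rcases fib hS heS he0 hker ht hs (htu.trans hsu.symm) (hsu ▸ hu0) with h3 | h3 | h3
        · exact h3
        · exact absurd (by rw [h3, add_sub_cancel_right]; exact hs) (hc t ht htu)
        · exact absurd (h3 ▸ ht) (hc s hs hsu)
      · rintro rfl
        exact ⟨hs, hsu⟩
    refine ⟨(s, 0), Or.inl rfl, hs, ?_, hsu, ?_⟩
    · show s + (0 : ℚ) • e ∈ S
      rw [zero_smul, add_zero]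
      exact hs
    · show aa S a π e u = (a s + a (s + (0 : ℚ) • e) + 0 * a e) / 2
      rw [zero_smul, add_zero, aa, hfil, Finset.sum_singleton, kk, if_neg (hc s hs hsu)]
      ring

/-- weights of lifted circuits -/
lemma lift_heavy (hS : Uni S) (heS : e ∈ S) (he0 : e ≠ 0)
    (hker : ∀ v, π v = 0 ↔ ∃ κ : ℚ, v = κ • e) {W : ℚ} (hH : Heavy S a W)
    {T' : Finset V'} {x : V' → V} {c : V' → ℚ}
    (hx : ∀ u ∈ T', π (x u) = u) (hxS : ∀ u ∈ T', x u ∈ S)
    (hT' : LinearIndepOn ℚ id (T' : Set V')) (hne : T'.Nonempty) (hc0 : ∀ u ∈ T', c u ≠ 0)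
    {x₀ : V} (hx₀ : x₀ ∈ S) (h0 : π x₀ = ∑ u ∈ T', c u • u) :
    ∃ κ : ℚ, x₀ = κ • e + ∑ u ∈ T', c u • x u ∧
      a x₀ + ∑ u ∈ T', a (x u) + |κ| * a e ≤ W := by
  have hπe : π e = 0 := (hker e).2 ⟨1, (one_smul ℚ e).symm⟩
  obtain ⟨hinj, heT, hind⟩ := lift_indep hπe he0 hx hT'
  obtain ⟨κ, hκ, h1⟩ := lift_rel hS heS he0 hker hx hxS hT' hx₀ h0
  have hrel : Rel (T'.image x) (∑ u ∈ T', c u • x u) := by
    refine ⟨fun v => c (π v), ?_, ?_⟩
    · rw [Finset.sum_image hinj]
      refine Finset.sum_congr rfl fun u hu => ?_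
      show c u • x u = c (π (x u)) • x u
      rw [hx u hu]
    · intro t ht
      obtain ⟨u, hu, rfl⟩ := Finset.mem_image.1 ht
      show c (π (x u)) ≠ 0
      rw [hx u hu]
      exact hc0 u hu
  have hTS : T'.image x ⊆ S := by
    intro t ht
    obtain ⟨u, hu, rfl⟩ := Finset.mem_image.1 ht
    exact hxS u hu
  refine ⟨κ, h1, ?_⟩
  rcases eq_or_ne κ 0 with h | h
  · have h2 := hH.rel (s := x₀) (hne.image x) hTS (indep_mono hind (Finset.subset_insert _ _)) hx₀
      (by rw [h1, h, zero_smul, zero_add]; exact hrel)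
    rw [Finset.sum_image hinj] at h2
    rw [h, abs_zero, zero_mul, add_zero]
    exact h2
  · have h2 := hH.rel (s := x₀) (Finset.insert_nonempty e (T'.image x))
      (Finset.insert_subset heS hTS) hind hx₀ (by rw [h1]; exact hrel.insert heT κ h)
    rw [Finset.sum_insert heT, Finset.sum_image hinj] at h2
    have h3 : |κ| = 1 := by
      rcases hκ with rfl | rfl | rfl
      · exact absurd rfl h
      · exact abs_one
      · rw [abs_neg, abs_one]
    rw [h3, one_mul]
    linarith

lemma Heavy.contract (hS : Uni S) (heS : e ∈ S) (he0 : e ≠ 0)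
    (hker : ∀ v, π v = 0 ↔ ∃ κ : ℚ, v = κ • e) {W : ℚ} (hH : Heavy S a W) (hae : 0 ≤ a e) :
    Heavy (S.image π) (aa S a π e) W := by
  intro T' c u₀ hne hT' hi hu₀ hcu hc0
  have hc1 := (hS.contract heS he0 hker).uni T' c u₀ hT' hi hu₀ hcu
  have hi' := hi
  rw [indep_iff] at hi'
  have hu₀0 : u₀ ≠ 0 := by
    rintro rfl
    obtain ⟨u, hu⟩ := hne
    exact hc0 u hu (hi' c hcu.symm u hu)
  have hne0 : ∀ u ∈ T', u ≠ 0 := by
    rintro u hu rfl
    have := hi' (fun w => if w = 0 then 1 else 0) (by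
      refine Finset.sum_eq_zero fun w _ => ?_
      by_cases h : w = 0
      · rw [h, smul_zero]
      · simp [h]) 0 hu
    simp at this
  have hlift : ∀ u : V', u ∈ S.image π → u ≠ 0 → ∃ p : V × ℚ, (p.2 = 0 ∨ p.2 = 1) ∧
      p.1 ∈ S ∧ p.1 + p.2 • e ∈ S ∧ π p.1 = u ∧
      aa S a π e u = (a p.1 + a (p.1 + p.2 • e) + p.2 * a e) / 2 :=
    fun u hu hu0 => lohi hS heS he0 hker hu hu0
  choose! p hp1 hp2 hp3 hp4 hp5 using hlift
  have hπe : π e = 0 := (hker e).2 ⟨1, (one_smul ℚ e).symm⟩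
  have hhi : ∀ u ∈ S.image π, u ≠ 0 → π ((p u).1 + (p u).2 • e) = u := by
    intro u hu hu0
    rw [map_add, map_smul, hπe, smul_zero, add_zero, hp4 u hu hu0]
  set x1 : V' → V := fun u => if c u = 1 then (p u).1 else (p u).1 + (p u).2 • e with hx1
  set x2 : V' → V := fun u => if c u = 1 then (p u).1 + (p u).2 • e else (p u).1 with hx2
  obtain ⟨κ1, e1, w1⟩ := lift_heavy hS heS he0 hker hH (x := x1) (c := c)
    (x₀ := (p u₀).1 + (p u₀).2 • e) (by
      intro u hu
      show π (if c u = 1 then (p u).1 else (p u).1 + (p u).2 • e) = u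
      split_ifs
      · exact hp4 u (hT' hu) (hne0 u hu)
      · exact hhi u (hT' hu) (hne0 u hu)) (by
      intro u hu
      show (if c u = 1 then (p u).1 else (p u).1 + (p u).2 • e) ∈ S
      split_ifs
      · exact hp2 u (hT' hu) (hne0 u hu)
      · exact hp3 u (hT' hu) (hne0 u hu)) hi hne hc0 (hp3 u₀ hu₀ hu₀0) (by
      rw [hhi u₀ hu₀ hu₀0]
      exact hcu)
  obtain ⟨κ2, e2, w2⟩ := lift_heavy hS heS he0 hker hH (x := x2) (c := c)
    (x₀ := (p u₀).1) (by
      intro u hu
      show π (if c u = 1 then (p u).1 + (p u).2 • e else (p u).1) = u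
      split_ifs
      · exact hhi u (hT' hu) (hne0 u hu)
      · exact hp4 u (hT' hu) (hne0 u hu)) (by
      intro u hu
      show (if c u = 1 then (p u).1 + (p u).2 • e else (p u).1) ∈ S
      split_ifs
      · exact hp3 u (hT' hu) (hne0 u hu)
      · exact hp2 u (hT' hu) (hne0 u hu)) hi hne hc0 (hp2 u₀ hu₀ hu₀0) (by
      rw [hp4 u₀ hu₀ hu₀0]
      exact hcu)
  have hdiff : ∑ u ∈ T', c u • x2 u - ∑ u ∈ T', c u • x1 u = (∑ u ∈ T', (p u).2) • e := by
    rw [← Finset.sum_sub_distrib, Finset.sum_smul]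
    refine Finset.sum_congr rfl fun u hu => ?_
    by_cases h : c u = 1
    · have h1 : x1 u = (p u).1 := if_pos h
      have h2 : x2 u = (p u).1 + (p u).2 • e := if_pos h
      rw [h1, h2, h, one_smul, one_smul]
      abel
    · have h1 : x1 u = (p u).1 + (p u).2 • e := if_neg h
      have h2 : x2 u = (p u).1 := if_neg h
      have h3 : c u = -1 := ((hc1 u hu).resolve_left (hc0 u hu)).resolve_left h
      rw [h1, h2, h3, neg_smul, neg_smul, one_smul, one_smul]
      abel
  have hκ : κ1 - κ2 = (p u₀).2 + ∑ u ∈ T', (p u).2 := by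
    have h1 : (κ1 - κ2 - ((p u₀).2 + ∑ u ∈ T', (p u).2)) • e = 0 := by
      rw [sub_smul, sub_smul, add_smul, ← hdiff]
      have h2 : (p u₀).2 • e = (κ1 • e + ∑ u ∈ T', c u • x1 u) -
          (κ2 • e + ∑ u ∈ T', c u • x2 u) := by
        rw [← e1, ← e2]
        abel
      rw [h2]
      abel
    have := (smul_eq_zero.1 h1).resolve_right he0
    linarith
  have hsum : ∑ u ∈ T', a (x1 u) + ∑ u ∈ T', a (x2 u) =
      ∑ u ∈ T', (a (p u).1 + a ((p u).1 + (p u).2 • e)) := by
    rw [← Finset.sum_add_distrib]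
    refine Finset.sum_congr rfl fun u hu => ?_
    by_cases h : c u = 1
    · have h1 : x1 u = (p u).1 := if_pos h
      have h2 : x2 u = (p u).1 + (p u).2 • e := if_pos h
      rw [h1, h2]
    · have h1 : x1 u = (p u).1 + (p u).2 • e := if_neg h
      have h2 : x2 u = (p u).1 := if_neg h
      rw [h1, h2, add_comm]
  have hA : ∑ u ∈ T', aa S a π e u =
      (∑ u ∈ T', (a (p u).1 + a ((p u).1 + (p u).2 • e)) + (∑ u ∈ T', (p u).2) * a e) / 2 := by
    rw [Finset.sum_mul, ← Finset.sum_add_distrib, Finset.sum_div]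
    exact Finset.sum_congr rfl fun u hu => hp5 u (hT' hu) (hne0 u hu)
  rw [hA, hp5 u₀ hu₀ hu₀0, ← hsum]
  have habs : κ1 - κ2 ≤ |κ1| + |κ2| := by
    have h1 := le_abs_self κ1
    have h2 := neg_le_abs κ2
    linarith
  have hmul : (κ1 - κ2) * a e ≤ (|κ1| + |κ2|) * a e := mul_le_mul_of_nonneg_right habs hae
  rw [hκ] at hmul
  have hmul' : (p u₀).2 * a e + (∑ u ∈ T', (p u).2) * a e ≤ |κ1| * a e + |κ2| * a e := by
    rw [← add_mul, ← add_mul]
    exact hmul
  linarith

end

end Pool.Agent.H281.Hel
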