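import Pool.Agent.H281.Hel.LinD

/-!
# The weighted Erdős–Gallai inequality for unimodular systems
-/

set_option autoImplicit false

namespace Pool.Agent.H281.Hel

open Finset Classical

section

variable {V V' : Type*} [AddCommGroup V] [Module ℚ V] [AddCommGroup V'] [Module ℚ V']
variable {S : Finset V} {a : V → ℚ} {π : V →ₗ[ℚ] V'} {e : V}

lemma aa_eq (S : Finset V) (a : V → ℚ) (π : V →ₗ[ℚ] V') (e : V) (u : V') :
    aa S a π e u = ∑ s ∈ S.filter (fun s => π s = u), a s -
      ∑ s ∈ (S.filter (fun s => π s = u)).filter (fun s => s - e ∈ S),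
        (a s + a (s - e) - a e) / 2 := by
  unfold aa kk
  rw [Finset.sum_sub_distrib, Finset.sum_filter (fun s => s - e ∈ S)]

lemma aa_neg (hS : Uni S) (ha : ∀ s, a (-s) = a s) (hπe : π e = 0) (u : V') :
    aa S a π e (-u) = aa S a π e u := by
  rw [aa_eq, aa_eq]
  congr 1
  · refine Finset.sum_nbij' (fun s => -s) (fun s => -s) ?_ ?_ ?_ ?_ ?_
    · intro s hs
      rw [Finset.mem_filter] at hs ⊢
      exact ⟨hS.neg s hs.1, by rw [map_neg, hs.2, neg_neg]⟩
    · intro s hs
      rw [Finset.mem_filter] at hs ⊢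
      exact ⟨hS.neg s hs.1, by rw [map_neg, hs.2]⟩
    · intro s _
      exact neg_neg s
    · intro s _
      exact neg_neg s
    · intro s _
      exact (ha s).symm
  · refine Finset.sum_nbij' (fun s => e - s) (fun s => e - s) ?_ ?_ ?_ ?_ ?_
    · intro s hs
      rw [Finset.mem_filter, Finset.mem_filter] at hs ⊢
      refine ⟨⟨?_, ?_⟩, ?_⟩
      · have := hS.neg _ hs.2
        rwa [neg_sub] at this
      · rw [map_sub, hπe, hs.1.2, zero_sub, neg_neg]
      · have : e - s - e = -s := by abel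
        rw [this]
        exact hS.neg s hs.1.1
    · intro s hs
      rw [Finset.mem_filter, Finset.mem_filter] at hs ⊢
      refine ⟨⟨?_, ?_⟩, ?_⟩
      · have := hS.neg _ hs.2
        rwa [neg_sub] at this
      · rw [map_sub, hπe, hs.1.2, zero_sub]
      · have : e - s - e = -s := by abel
        rw [this]
        exact hS.neg s hs.1.1
    · intro s _
      exact sub_sub_cancel e s
    · intro s _
      exact sub_sub_cancel e s
    · intro s _
      have h1 : e - s - e = -s := by abel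
      have h2 : a (e - s) = a (s - e) := by rw [← ha, neg_sub]
      show (a s + a (s - e) - a e) / 2 = (a (e - s) + a (e - s - e) - a e) / 2
      rw [h1, h2, ha s]
      ring

lemma aa_nonneg (hS : Uni S) (heS : e ∈ S) (he0 : e ≠ 0)
    (hker : ∀ v, π v = 0 ↔ ∃ κ : ℚ, v = κ • e) (hpos : ∀ s ∈ S, s ≠ 0 → 0 ≤ a s)
    {u : V'} (hu : u ∈ S.image π) (hu0 : u ≠ 0) : 0 ≤ aa S a π e u := by
  obtain ⟨p, h1, h2, h3, h4, h5⟩ := lohi (a := a) hS heS he0 hker hu hu0
  have hπe : π e = 0 := (hker e).2 ⟨1, (one_smul ℚ e).symm⟩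
  rw [h5]
  have a1 : 0 ≤ a p.1 := hpos _ h2 (by
    intro h
    rw [h, map_zero] at h4
    exact hu0 h4.symm)
  have a2 : 0 ≤ a (p.1 + p.2 • e) := hpos _ h3 (by
    intro h
    apply hu0
    have h6 : π (p.1 + p.2 • e) = u := by rw [map_add, map_smul, hπe, smul_zero, add_zero, h4]
    rw [← h6, h, map_zero])
  have a3 : 0 ≤ p.2 * a e := by
    refine mul_nonneg ?_ (hpos e heS he0)
    rcases h1 with h | h <;> rw [h]
    exact zero_le_one
  linarith

lemma total_sum (hS : Uni S) (heS : e ∈ S) (he0 : e ≠ 0) (ha : ∀ s, a (-s) = a s)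
    (hker : ∀ v, π v = 0 ↔ ∃ κ : ℚ, v = κ • e) (hpos : ∀ s ∈ S, s ≠ 0 → 0 ≤ a s) :
    ∑ s ∈ S.erase 0, a s ≤ 2 * a e + ∑ u ∈ (S.image π).erase 0, aa S a π e u +
      (∑ s ∈ S.filter (fun s => π s ≠ 0 ∧ s - e ∈ S), (a s + a (s - e) - a e)) / 2 := by
  have hπe : π e = 0 := (hker e).2 ⟨1, (one_smul ℚ e).symm⟩
  have h1 : ∑ u ∈ (S.image π).erase 0, aa S a π e u =
      ∑ s ∈ S.filter (fun s => π s ≠ 0), kk S a e s := by
    rw [← Finset.sum_fiberwise_of_maps_to (t := (S.image π).erase 0) (g := π) (by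
      intro s hs
      rw [Finset.mem_filter] at hs
      exact Finset.mem_erase.2 ⟨hs.2, Finset.mem_image_of_mem π hs.1⟩)]
    refine Finset.sum_congr rfl fun u hu => ?_
    unfold aa
    congr 1
    ext s
    rw [Finset.mem_filter, Finset.mem_filter, Finset.mem_filter]
    constructor
    · rintro ⟨h1, h2⟩
      exact ⟨⟨h1, h2 ▸ (Finset.mem_erase.1 hu).1⟩, h2⟩
    · rintro ⟨⟨h1, -⟩, h2⟩
      exact ⟨h1, h2⟩
  have h2 : ∑ s ∈ S.filter (fun s => π s ≠ 0), kk S a e s =
      ∑ s ∈ S.filter (fun s => π s ≠ 0), a s -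
        (∑ s ∈ S.filter (fun s => π s ≠ 0 ∧ s - e ∈ S), (a s + a (s - e) - a e)) / 2 := by
    unfold kk
    rw [Finset.sum_sub_distrib, ← Finset.sum_filter, Finset.filter_filter, Finset.sum_div]
  have h3 : ∑ s ∈ S.erase 0, a s = ∑ s ∈ S.filter (fun s => π s ≠ 0), a s +
      ∑ s ∈ (S.erase 0).filter (fun s => ¬ π s ≠ 0), a s := by
    rw [← Finset.sum_filter_add_sum_filter_not (S.erase 0) (fun s => π s ≠ 0)]
    congr 2
    ext s
    rw [Finset.mem_filter, Finset.mem_filter, Finset.mem_erase]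
    constructor
    · rintro ⟨⟨-, h⟩, h'⟩
      exact ⟨h, h'⟩
    · rintro ⟨h, h'⟩
      refine ⟨⟨?_, h⟩, h'⟩
      rintro rfl
      exact h' (map_zero π)
  have hsub : (S.erase 0).filter (fun s => ¬ π s ≠ 0) ⊆ {e, -e} := by
    intro s hs
    rw [Finset.mem_filter, Finset.mem_erase, not_not] at hs
    obtain ⟨⟨hs0, hsS⟩, hs2⟩ := hs
    obtain ⟨κ, hκ⟩ := (hker s).1 hs2
    have hi : LinearIndepOn ℚ id (({e} : Finset V) : Set V) := by
      rw [indep_iff]
      intro g hg u hu
      rw [Finset.sum_singleton] at hg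
      rw [Finset.mem_singleton.1 hu]
      exact (smul_eq_zero.1 hg).resolve_right he0
    have := hS.uni {e} (fun _ => κ) s (Finset.singleton_subset_iff.2 heS) hi hsS
      (by rw [Finset.sum_singleton, hκ]) e (Finset.mem_singleton_self e)
    rw [Finset.mem_insert, Finset.mem_singleton]
    rcases this with h | h | h
    · exfalso
      apply hs0
      have h' : κ = 0 := h
      rw [hκ, h', zero_smul]
    · have h' : κ = 1 := h
      left
      rw [hκ, h', one_smul]
    · have h' : κ = -1 := h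
      right
      rw [hκ, h', neg_smul, one_smul]
  have h4 : ∑ s ∈ (S.erase 0).filter (fun s => ¬ π s ≠ 0), a s ≤ 2 * a e := by
    have hae := hpos e heS he0
    refine (Finset.sum_le_sum_of_subset_of_nonneg hsub ?_).trans ?_
    · intro s hs _
      rw [Finset.mem_insert, Finset.mem_singleton] at hs
      rcases hs with rfl | rfl
      · exact hae
      · rw [ha]; exact hae
    · refine (sum_insert_le a hae).trans ?_
      rw [Finset.sum_singleton, ha]
      linarith
  rw [h1, h2, h3]
  linarith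

end

/-- the weighted Erdős–Gallai inequality for unimodular systems: if every circuit has weight at
most `W` then the total weight is at most `rank * W` -/
theorem weg (n : ℕ) : ∀ (V : Type) [AddCommGroup V] [Module ℚ V] [FiniteDimensional ℚ V]
    (S : Finset V) (a : V → ℚ) (W : ℚ), Module.finrank ℚ V = n → Uni S →
    (∀ s ∈ S, s ≠ 0 → 0 ≤ a s) → (∀ s, a (-s) = a s) → 0 ≤ W → Heavy S a W →
    ∑ s ∈ S.erase 0, a s ≤ n * W := by
  induction n with
  | zero =>
    intro V _ _ _ S a W hn hS hpos ha hW hH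
    have hz : S.erase 0 = ∅ := by
      rw [Finset.eq_empty_iff_forall_notMem]
      intro s hs
      have hsub : Subsingleton V := Module.finrank_zero_iff.1 hn
      exact (Finset.mem_erase.1 hs).1 (Subsingleton.elim s 0)
    rw [hz, Finset.sum_empty]
    simp
  | succ n ih =>
    intro V _ _ _ S a W hn hS hpos ha hW hH
    rcases (S.erase 0).eq_empty_or_nonempty with hz | ⟨s₀, hs₀⟩
    · rw [hz, Finset.sum_empty]
      positivity
    rw [Finset.mem_erase] at hs₀
    obtain ⟨J, hJ, hne, hi, heS, hH0⟩ := exists_heaviest hS ha hs₀.2 hs₀.1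
    have he0 : ∑ j ∈ J, j ≠ 0 := by
      intro h
      obtain ⟨x, hx⟩ := hne
      rw [indep_iff] at hi
      have := hi (fun _ => 1) (by
        rw [← h]
        exact Finset.sum_congr rfl fun j _ => one_smul ℚ j) x hx
      exact one_ne_zero this
    have hps := pageSum hS ha hJ hne hi heS hH0
    have hWW : a (∑ j ∈ J, j) + ∑ j ∈ J, a j ≤ W := by
      refine hH J (fun _ => 1) _ hne hJ hi heS ?_ (fun _ _ => one_ne_zero)
      exact Finset.sum_congr rfl fun j _ => (one_smul ℚ j).symm
    set e := ∑ j ∈ J, j with he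
    set π := (Submodule.span ℚ {e}).mkQ with hπ
    have hker : ∀ v, π v = 0 ↔ ∃ κ : ℚ, v = κ • e := by
      intro v
      rw [hπ, Submodule.mkQ_apply, Submodule.Quotient.mk_eq_zero, Submodule.mem_span_singleton]
      exact ⟨fun ⟨κ, h⟩ => ⟨κ, h.symm⟩, fun ⟨κ, h⟩ => ⟨κ, h.symm⟩⟩
    have hπe : π e = 0 := (hker e).2 ⟨1, (one_smul ℚ e).symm⟩
    have hrank : Module.finrank ℚ (V ⧸ Submodule.span ℚ {e}) = n := by
      have h1 := Submodule.finrank_quotient_add_finrank (Submodule.span ℚ {e})
      have h2 := finrank_span_singleton (K := ℚ) he0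
      omega
    have hih := ih (V ⧸ Submodule.span ℚ {e}) (S.image π) (aa S a π e) W hrank
      (hS.contract heS he0 hker) (fun u hu hu0 => aa_nonneg hS heS he0 hker hpos hu hu0)
      (aa_neg hS ha hπe) hW (hH.contract hS heS he0 hker (hpos e heS he0))
    have htot := total_sum (a := a) hS heS he0 ha hker hpos
    have hD := hps (S.filter (fun s => π s ≠ 0 ∧ s - e ∈ S)) (by
      intro f hf
      rw [Finset.mem_filter] at hf
      refine ⟨hf.1, hf.2.2, ?_, ?_⟩
      · rintro rfl
        exact hf.2.1 (map_zero π)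
      · intro h
        exact hf.2.1 (h ▸ hπe))
    push_cast
    linarith

end Pool.Agent.H281.Hel
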